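import Pool.Agent.P.MP_029dcd_co.F.M.Mol

/-! Layer M: the overdetermined system for smooth macroscopic deformations. -/

set_option autoImplicit false

namespace ECub.M

open MeasureTheory Filter Topology Finset Matrix
open scoped ENNReal ContDiff

variable {n : ℕ}

/-- Kronecker symbol -/
def dl (k j : Fin (n + 2)) : ℝ := if k = j then 1 else 0

theorem dl_self (k : Fin (n + 2)) : dl k k = 1 := if_pos rfl

theorem dl_ne {k j : Fin (n + 2)} (h : k ≠ j) : dl k j = 0 := if_neg h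

theorem dl_ite (k j : Fin (n + 2)) (x : ℝ) : (if k = j then x else 0) = dl k j * x := by
  unfold dl
  split_ifs <;> simp

theorem dl01 : dl (0 : Fin (n + 2)) 1 = 0 := dl_ne (by simp)

theorem dl10 : dl (1 : Fin (n + 2)) 0 = 0 := dl_ne (by simp)

theorem pde {U : Set (ℝ × ℝ)} (hU : IsOpen U) (hc : IsPreconnected U)
    {K : Fin (n + 2) → Fin (n + 2) → ℝ × ℝ → ℝ} {C : Fin (n + 2) → ℝ × ℝ → ℝ}
    (hK : ∀ k j, ContDiff ℝ ∞ (K k j)) (hC : ∀ j, ContDiff ℝ ∞ (C j))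
    (hA : ∀ X ∈ U, ∃ (z0 z1 : ℝ) (y : E n),
      (∀ k j, D (0, 1) (K k j) X = dl k j * z1 + dl j 0 * y k) ∧
      ∀ k j, D (1, 0) (K k j) X = dl k j * z0 - dl j 1 * y k)
    (hB : ∀ X ∈ U, ∃ e : ℝ, (∀ j, D (0, 1) (C j) X + K 0 j X = dl j 0 * e) ∧
      ∀ j, D (1, 0) (C j) X - K 1 j X = dl j 1 * -e) :
    ∃ (y c0 : E n) (a : Fin (n + 2) → E n), ∀ X ∈ U,
      (∃ Z : ℝ, ∀ k j, K k j X = dl k j * Z + dl j 0 * (y k * X.2) - dl j 1 * (y k * X.1) + a k j) ∧
      ∀ j, C j X = a 1 j * X.1 - a 0 j * X.2 + dl j 0 * (y 1 * X.1 * X.2 - y 0 * X.2 * X.2)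
        + dl j 1 * (y 0 * X.1 * X.2 - y 1 * X.1 * X.1) + c0 j := by
  obtain ⟨z0, hz0⟩ : ∃ z0, z0 = D (1, 0) (K 0 0) := ⟨_, rfl⟩
  obtain ⟨z1, hz1⟩ : ∃ z1, z1 = D (0, 1) (K 1 1) := ⟨_, rfl⟩
  have s0 : ContDiff ℝ ∞ z0 := hz0 ▸ D_smooth _ (hK 0 0)
  have s1 : ContDiff ℝ ∞ z1 := hz1 ▸ D_smooth _ (hK 1 1)
  obtain ⟨y, hy⟩ : ∃ y : Fin (n + 2) → ℝ × ℝ → ℝ,
      y = fun k X => D (0, 1) (K k 0) X - dl k 0 * z1 X := ⟨_, rfl⟩
  have sy : ∀ k, ContDiff ℝ ∞ (y k) := fun k =>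
    hy ▸ (D_smooth _ (hK k 0)).sub (contDiff_const.mul s1)
  obtain ⟨e, he⟩ : ∃ e : ℝ × ℝ → ℝ, e = fun X => D (0, 1) (C 0) X + K 0 0 X := ⟨_, rfl⟩
  have se : ContDiff ℝ ∞ e := he ▸ (D_smooth _ (hC 0)).add (hK 0 0)
  have hA' : ∀ X ∈ U, (∀ k j, D (0, 1) (K k j) X = dl k j * z1 X + dl j 0 * y k X) ∧
      ∀ k j, D (1, 0) (K k j) X = dl k j * z0 X + -dl j 1 * y k X := by
    intro X hX
    obtain ⟨w0, w1, v, h1, h2⟩ := hA X hX
    have e0 : z0 X = w0 := by rw [hz0, h2, dl_self, dl01]; ring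
    have e1 : z1 X = w1 := by rw [hz1, h1, dl_self, dl10]; ring
    have e2 : ∀ k, y k X = v k := fun k => by
      simp only [hy]
      rw [h1, e1, dl_self]; ring
    refine ⟨fun k j => ?_, fun k j => ?_⟩
    · rw [h1, e1, e2]
    · rw [h2, e0, e2]; ring
  have hB' : ∀ X ∈ U, (∀ j, D (0, 1) (C j) X = -1 * K 0 j X + dl j 0 * e X) ∧
      ∀ j, D (1, 0) (C j) X = 1 * K 1 j X + -dl j 1 * e X := by
    intro X hX
    obtain ⟨w, h1, h2⟩ := hB X hX
    have e0 : e X = w := by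
      simp only [he]
      rw [h1, dl_self, one_mul]
    refine ⟨fun j => ?_, fun j => ?_⟩
    · rw [e0]; linear_combination h1 j
    · rw [e0]; linear_combination h2 j
  clear hA hB hz0 hz1 hy he
  have c1 := fun k j X (hX : X ∈ U) => cross hU (hK k j) s0 (sy k) s1 (sy k)
    (fun X hX => (hA' X hX).2 k j) (fun X hX => (hA' X hX).1 k j) hX
  have c2 := fun j X (hX : X ∈ U) => cross hU (hC j) (hK 1 j) se (hK 0 j) se
    (fun X hX => (hB' X hX).2 j) (fun X hX => (hB' X hX).1 j) hX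
  have d1 : ∀ X ∈ U, D (1, 0) e X = 1 * z0 X + 1 * y 1 X := fun X hX => by
    have h1 := c2 0 X hX
    rw [(hA' X hX).1, (hA' X hX).2, dl_self, dl01, dl10] at h1
    linear_combination -h1
  have d2 : ∀ X ∈ U, D (0, 1) e X = 1 * z1 X + -1 * y 0 X := fun X hX => by
    have h1 := c2 1 X hX
    rw [(hA' X hX).1, (hA' X hX).2, dl_self, dl01, dl10] at h1
    linear_combination -h1
  have d3 : ∀ k, ∀ X ∈ U, D (1, 0) (y k) X = 0 ∧ D (0, 1) (y k) X = 0 := by
    intro k X hX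
    have h1 := cross hU se s0 (sy 1) s1 (sy 0) d1 d2 hX
    have h2 := c1 0 0 X hX
    have h3 := c1 1 1 X hX
    have h4 := c1 k 0 X hX
    have h5 := c1 k 1 X hX
    simp only [dl_self, dl01, dl10] at h2 h3 h4 h5
    constructor
    · by_cases hk : k = 0
      · subst hk
        linarith
      · rw [dl_ne hk] at h4
        linear_combination -h4
    · by_cases hk : k = 1
      · subst hk
        linarith
      · rw [dl_ne hk] at h5
        linear_combination -h5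
  choose Y hY using fun k => quad hU hc (sy k) 0 0 0 0 0
    (fun X hX => by rw [(d3 k X hX).1]; ring) (fun X hX => by rw [(d3 k X hX).2]; ring)
  simp only [zero_mul, zero_add] at hY
  choose a ha using fun k j => quad (f := fun X => 1 * K k j X + -dl k j * K 0 0 X) hU hc
    ((contDiff_const.mul (hK k j)).add (contDiff_const.mul (hK 0 0))) (-dl j 1 * Y k)
    (dl j 0 * Y k - dl k j * Y 0) 0 0 0
    (fun X hX => by
      rw [D_lin _ (hK k j) (hK 0 0), (hA' X hX).2, (hA' X hX).2, dl_self, dl01, hY k X hX]; ring)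
    (fun X hX => by
      rw [D_lin _ (hK k j) (hK 0 0), (hA' X hX).1, (hA' X hX).1, dl_self, hY k X hX, hY 0 X hX]
      ring)
  obtain ⟨b0, hb0⟩ := quad (f := fun X => 1 * e X + -1 * K 0 0 X) hU hc
    ((contDiff_const.mul se).add (contDiff_const.mul (hK 0 0))) (Y 1) (-2 * Y 0) 0 0 0
    (fun X hX => by
      rw [D_lin _ se (hK 0 0), d1 X hX, (hA' X hX).2, dl_self, dl01, hY 1 X hX]; ring)
    (fun X hX => by
      rw [D_lin _ se (hK 0 0), d2 X hX, (hA' X hX).1, dl_self, hY 0 X hX]; ring)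
  have hdl : ∀ k j : Fin (n + 2), dl k j = dl j k := fun k j => by simp only [dl, eq_comm]
  choose c0 hc0 using fun j => quad hU hc (hC j) (a 1 j - dl 1 j * b0) (-(a 0 j - dl 0 j * b0))
    (-dl j 1 * Y 1) (dl j 0 * Y 1 + dl j 1 * Y 0) (-dl j 0 * Y 0)
    (fun X hX => by
      have h1 := ha 1 j X hX
      have h2 := hb0 X hX
      rw [(hB' X hX).2]
      rw [hdl 1 j] at h1 ⊢
      linear_combination h1 - dl j 1 * h2)
    (fun X hX => by
      have h1 := ha 0 j X hX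
      have h2 := hb0 X hX
      rw [(hB' X hX).1]
      rw [hdl 0 j] at h1 ⊢
      linear_combination -h1 + dl j 0 * h2)
  refine ⟨Y, c0, fun k j => a k j - dl k j * b0, fun X hX =>
    ⟨⟨K 0 0 X - Y 0 * X.2 + b0, fun k j => ?_⟩, fun j => ?_⟩⟩
  · linear_combination ha k j X hX
  · linear_combination hc0 j X hX

end ECub.M
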