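import Pool.Agent.P.MP_029dcd_co.F.M.Basic

/-! Layer M: mollification in the plane, limits in finite dimensional families, partial
derivatives. -/

set_option autoImplicit false

namespace ECub.M

open MeasureTheory Filter Topology Finset
open scoped ENNReal Convolution ContDiff

/-- the radius of the `j`-th bump -/
noncomputable def rad (j : ℕ) : ℝ := 1 / ((j : ℝ) + 1)

theorem rad_pos (j : ℕ) : 0 < rad j := Nat.one_div_pos_of_nat

theorem rad_tendsto : Tendsto rad atTop (𝓝 0) := tendsto_one_div_add_atTop_nhds_zero_nat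

/-- the `j`-th bump -/
noncomputable def bump (j : ℕ) : ContDiffBump (0 : ℝ × ℝ) :=
  ⟨rad j / 2, rad j, half_pos (rad_pos j), half_lt_self (rad_pos j)⟩

section Mol

variable {F F' : Type*} [NormedAddCommGroup F] [NormedSpace ℝ F] [CompleteSpace F]
  [NormedAddCommGroup F'] [NormedSpace ℝ F'] [CompleteSpace F']

/-- mollification -/
noncomputable def mol (j : ℕ) (f : ℝ × ℝ → F) : ℝ × ℝ → F :=
  (bump j).normed volume ⋆[ContinuousLinearMap.lsmul ℝ ℝ, volume] f

omit [CompleteSpace F] in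
theorem mol_smooth (j : ℕ) {f : ℝ × ℝ → F} (hf : LocallyIntegrable f volume) :
    ContDiff ℝ ∞ (mol j f) :=
  (bump j).hasCompactSupport_normed.contDiff_convolution_left _ (bump j).contDiff_normed hf

theorem mol_tendsto {f : ℝ × ℝ → F} (hf : LocallyIntegrable f volume) :
    ∀ᵐ X ∂(volume : Measure (ℝ × ℝ)), Tendsto (fun j => mol j f X) atTop (𝓝 (f X)) :=
  ContDiffBump.ae_convolution_tendsto_right_of_locallyIntegrable (φ := bump) (K := 2) rad_tendsto
    (Eventually.of_forall fun j => le_of_eq (by simp only [bump]; ring)) hf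

omit [CompleteSpace F] in
theorem mol_int (j : ℕ) {f : ℝ × ℝ → F} (hf : LocallyIntegrable f volume) (X : ℝ × ℝ) :
    Integrable (fun Y => (bump j).normed volume Y • f (X - Y)) volume :=
  (bump j).hasCompactSupport_normed.convolutionExists_left (ContinuousLinearMap.lsmul ℝ ℝ)
    (bump j).continuous_normed hf X

theorem mol_clm (j : ℕ) {f : ℝ × ℝ → F} (hf : LocallyIntegrable f volume) (ℓ : F →L[ℝ] F')
    (X : ℝ × ℝ) : ℓ (mol j f X) = mol j (fun Y => ℓ (f Y)) X := by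
  rw [mol, convolution_lsmul, ← ℓ.integral_comp_comm (mol_int j hf X), mol, convolution_lsmul]
  simp only [map_smul]

theorem isOpen_Q (q : ℝ) : IsOpen (Q q) := isOpen_Ioo.prod isOpen_Ioo

theorem sub_mem_Q {q r : ℝ} {X Y : ℝ × ℝ} (hX : X ∈ Q (q - r)) (hY : Y ∈ Metric.ball 0 r) :
    X - Y ∈ Q q := by
  rw [mem_ball_zero_iff] at hY
  have h1 := abs_lt.1 (lt_of_le_of_lt (norm_fst_le Y) hY)
  have h2 := abs_lt.1 (lt_of_le_of_lt (norm_snd_le Y) hY)
  obtain ⟨⟨a1, a2⟩, a3, a4⟩ := hX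
  refine ⟨⟨?_, ?_⟩, ?_, ?_⟩ <;> simp only [Prod.fst_sub, Prod.snd_sub] <;>
    linarith [h1.1, h1.2, h2.1, h2.2]

theorem mol_dir (j : ℕ) {f : ℝ × ℝ → F} (hf : LocallyIntegrable f volume) (ℓ : F →L[ℝ] ℝ)
    {Φ : ℝ × ℝ → ℝ} {v : ℝ × ℝ} {p : ℝ × ℝ → Prop} {q : ℝ}
    (hp : ∀ᵐ Y ∂(volume.restrict (Q q)), p Y)
    (h : ∀ Y (s : ℝ), p Y → p (Y + s • v) → ℓ (f (Y + s • v)) - ℓ (f Y) = s * Φ Y)
    {X : ℝ × ℝ} (hX : X ∈ Q (q - rad j)) : ℓ (fderiv ℝ (mol j f) X v) = mol j Φ X := by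
  rw [ae_restrict_iff' (isOpen_Q q).measurableSet] at hp
  have hl : HasDerivAt (fun s : ℝ => X + s • v) v 0 := by
    simpa using ((hasDerivAt_id (0 : ℝ)).smul_const v).const_add X
  have h1 : HasDerivAt (fun s : ℝ => ℓ (mol j f (X + s • v))) (ℓ (fderiv ℝ (mol j f) X v)) 0 := by
    have h2 : HasFDerivAt (mol j f) (fderiv ℝ (mol j f) X) (X + (0 : ℝ) • v) := by
      simpa using ((mol_smooth j hf).differentiable (by simp) X).hasFDerivAt
    exact ℓ.hasFDerivAt.comp_hasDerivAt 0 (h2.comp_hasDerivAt 0 hl)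
  have h2 : HasDerivAt (fun s : ℝ => ℓ (mol j f X) + s * mol j Φ X) (mol j Φ X) 0 := by
    simpa using ((hasDerivAt_id (0 : ℝ)).mul_const (mol j Φ X)).const_add (ℓ (mol j f X))
  refine h1.unique (h2.congr_of_eventuallyEq ?_)
  have h3 : ∀ᶠ s : ℝ in 𝓝 0, X + s • v ∈ Q (q - rad j) :=
    hl.continuousAt.eventually ((isOpen_Q _).mem_nhds (by simpa using hX))
  filter_upwards [h3] with s hs
  rw [← sub_eq_iff_eq_add', ← map_sub, mol, convolution_lsmul, convolution_lsmul,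
    ← integral_sub (mol_int j hf _) (mol_int j hf _),
    ← ℓ.integral_comp_comm ((mol_int j hf _).sub' (mol_int j hf _)), mol, convolution_lsmul,
    ← integral_const_mul]
  refine integral_congr_ae ?_
  filter_upwards [(Measure.measurePreserving_sub_left volume X).quasiMeasurePreserving.ae hp,
    (Measure.measurePreserving_sub_left volume (X + s • v)).quasiMeasurePreserving.ae hp] with
    Y h4 h5
  by_cases hY : Y ∈ Metric.ball (0 : ℝ × ℝ) (rad j)
  · have h6 := h (X - Y) s (h4 (sub_mem_Q hX hY))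
    rw [← add_sub_right_comm] at h6
    simp only [map_sub, map_smul, smul_eq_mul]
    rw [← mul_sub, h6 (h5 (sub_mem_Q hs hY))]
    ring
  · have h6 : (bump j).normed volume Y = 0 := by
      rwa [← Function.notMem_support, ContDiffBump.support_normed_eq]
    simp [h6]

omit [NormedSpace ℝ F] [CompleteSpace F] in
theorem locInt [MeasurableSpace F] [OpensMeasurableSpace F] [SecondCountableTopology F]
    {f : ℝ × ℝ → F} (hf : Measurable f) {B : ℝ} (hB : ∀ X, ‖f X‖ ≤ B) :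
    LocallyIntegrable f volume :=
  (locallyIntegrable_const B).mono hf.aestronglyMeasurable
    (Eventually.of_forall fun X => (hB X).trans (le_abs_self B))

end Mol

/-- pointwise limits of members of a finite dimensional family belong to the family -/
theorem fd_limit {Ω V Y : Type*} [AddCommGroup V] [Module ℝ V] [FiniteDimensional ℝ V]
    [NormedAddCommGroup Y] [NormedSpace ℝ Y] (L : V →ₗ[ℝ] Ω → Y) (v : ℕ → V) (f : Ω → Y)
    (N : Set Ω) (h : ∀ x ∈ N, Tendsto (fun j => L (v j) x) atTop (𝓝 (f x))) :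
    ∃ w, ∀ x ∈ N, f x = L w x := by
  let ev : V →ₗ[ℝ] N → Y := (LinearMap.funLeft ℝ Y Subtype.val).comp L
  have h1 : Tendsto (fun j => ev (v j)) atTop (𝓝 fun x : N => f x) :=
    tendsto_pi_nhds.2 fun x => h x x.2
  obtain ⟨w, hw⟩ := (LinearMap.range ev).closed_of_finiteDimensional.mem_of_tendsto h1
    (Eventually.of_forall fun j => ⟨v j, rfl⟩)
  exact ⟨w, fun x hx => (congrFun hw ⟨x, hx⟩).symm⟩

/-- directional derivative -/
noncomputable def D (v : ℝ × ℝ) (f : ℝ × ℝ → ℝ) : ℝ × ℝ → ℝ := fun X => fderiv ℝ f X v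

variable {f g p r : ℝ × ℝ → ℝ} {U : Set (ℝ × ℝ)}

theorem D_smooth (v : ℝ × ℝ) (hf : ContDiff ℝ ∞ f) : ContDiff ℝ ∞ (D v f) :=
  (hf.fderiv_right (m := ∞) le_rfl).clm_apply contDiff_const

theorem D_comm (v w : ℝ × ℝ) (hf : ContDiff ℝ ∞ f) (X : ℝ × ℝ) :
    D v (D w f) X = D w (D v f) X := by
  have h1 : DifferentiableAt ℝ (fderiv ℝ f) X :=
    (hf.fderiv_right (m := ∞) le_rfl).differentiable (by simp) X
  have h2 : ∀ v w, D v (D w f) X = fderiv ℝ (fderiv ℝ f) X v w := fun v w => by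
    unfold D
    rw [fderiv_clm_apply h1 (differentiableAt_const w)]
    simp
  rw [h2, h2]
  exact (hf.contDiffAt.isSymmSndFDerivAt (by
    rw [minSmoothness_of_isRCLikeNormedField]; exact WithTop.coe_le_coe.2 le_top)).eq v w

theorem D_congr (v : ℝ × ℝ) (hU : IsOpen U) (h : ∀ X ∈ U, f X = g X) {X : ℝ × ℝ} (hX : X ∈ U) :
    D v f X = D v g X := by
  unfold D
  rw [Filter.EventuallyEq.fderiv_eq (Filter.eventuallyEq_of_mem (hU.mem_nhds hX) h)]

theorem D_lin (v : ℝ × ℝ) (hf : ContDiff ℝ ∞ f) (hg : ContDiff ℝ ∞ g) (a b : ℝ) (X : ℝ × ℝ) :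
    D v (fun X => a * f X + b * g X) X = a * D v f X + b * D v g X := by
  have h1 := (((hf.differentiable (by simp) X).hasFDerivAt.const_mul a).add
    ((hg.differentiable (by simp) X).hasFDerivAt.const_mul b)).fderiv
  unfold D
  rw [show (fun X => a * f X + b * g X) = (fun X => a * f X) + fun X => b * g X from rfl, h1]
  simp

/-- symmetry of second derivatives for a function with known first derivatives -/
theorem cross (hU : IsOpen U) (hf : ContDiff ℝ ∞ f) {p1 p2 r1 r2 : ℝ × ℝ → ℝ}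
    (hp1 : ContDiff ℝ ∞ p1) (hp2 : ContDiff ℝ ∞ p2) (hr1 : ContDiff ℝ ∞ r1)
    (hr2 : ContDiff ℝ ∞ r2) {a b c d : ℝ}
    (h1 : ∀ X ∈ U, D (1, 0) f X = a * p1 X + b * p2 X)
    (h2 : ∀ X ∈ U, D (0, 1) f X = c * r1 X + d * r2 X) {X : ℝ × ℝ} (hX : X ∈ U) :
    a * D (0, 1) p1 X + b * D (0, 1) p2 X = c * D (1, 0) r1 X + d * D (1, 0) r2 X := by
  rw [← D_lin _ hp1 hp2, ← D_lin _ hr1 hr2, ← D_congr _ hU h1 hX, ← D_congr _ hU h2 hX,
    D_comm _ _ hf]

theorem quad (hU : IsOpen U) (hc : IsPreconnected U) (hf : ContDiff ℝ ∞ f) (a b c d e : ℝ)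
    (h1 : ∀ X ∈ U, D (1, 0) f X = a + 2 * c * X.1 + d * X.2)
    (h2 : ∀ X ∈ U, D (0, 1) f X = b + d * X.1 + 2 * e * X.2) :
    ∃ c0, ∀ X ∈ U, f X =
      a * X.1 + b * X.2 + c * (X.1 * X.1) + d * (X.1 * X.2) + e * (X.2 * X.2) + c0 := by
  have hg := fun X : ℝ × ℝ => ((((hasFDerivAt_fst (𝕜 := ℝ) (p := X)).const_mul a).add
    ((hasFDerivAt_snd (𝕜 := ℝ) (p := X)).const_mul b)).add
    (((hasFDerivAt_fst (𝕜 := ℝ) (p := X)).mul (hasFDerivAt_fst (𝕜 := ℝ) (p := X))).const_mul c)).add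
    (((hasFDerivAt_fst (𝕜 := ℝ) (p := X)).mul (hasFDerivAt_snd (𝕜 := ℝ) (p := X))).const_mul d)
    |>.add (((hasFDerivAt_snd (𝕜 := ℝ) (p := X)).mul
      (hasFDerivAt_snd (𝕜 := ℝ) (p := X))).const_mul e)
  refine hU.exists_eq_add_of_fderiv_eq (𝕜 := ℝ) hc (hf.differentiable (by simp)).differentiableOn
    (fun X _ => (hg X).differentiableAt.differentiableWithinAt) fun X hX => ?_
  refine Eq.trans ?_ (hg X).fderiv.symm
  have e1 := h1 X hX
  have e2 := h2 X hX
  unfold D at e1 e2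
  ext
  · simp only [ContinuousLinearMap.coe_comp, Function.comp, ContinuousLinearMap.inl_apply, e1]
    simp
    ring
  · simp only [ContinuousLinearMap.coe_comp, Function.comp, ContinuousLinearMap.inr_apply, e2]
    simp
    ring

end ECub.M
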