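import Pool.Agent.P.MP_029dcd_co.F.M.Dim
import Pool.Agent.P.MP_029dcd_co.F.M.Mol

/-! Layer M: the slope component of a macroscopic deformation. -/

set_option autoImplicit false

namespace ECub.M

open MeasureTheory Filter Topology Finset Matrix
open scoped ENNReal ContDiff

theorem exists_ginv {V : Type*} [AddCommGroup V] [Module ℝ V] (G : V →ₗ[ℝ] V) :
    ∃ B : V →ₗ[ℝ] V, ∀ w, G (B (G w)) = G w := by
  obtain ⟨R, hR⟩ := G.rangeRestrict.exists_rightInverse_of_surjective G.range_rangeRestrict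
  obtain ⟨B, hB⟩ := LinearMap.exists_extend R
  refine ⟨B, fun w => ?_⟩
  have h1 : B (G w) = R ⟨G w, w, rfl⟩ := LinearMap.congr_fun hB ⟨G w, w, rfl⟩
  rw [h1]
  exact congrArg Subtype.val (LinearMap.congr_fun hR ⟨G w, w, rfl⟩)

/-- measurable bounded selection of coefficients -/
theorem select {Ω A ι : Type*} [MeasurableSpace Ω] [MeasurableSpace A] [Fintype ι]
    (μ : Measure Ω) [IsFiniteMeasure μ] {F : Ω → ι → ℝ} (hF : Measurable F) {C : ℝ}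
    (hC : ∀ᵐ a ∂μ, ‖F a‖ ≤ C) {Φ : A → Ω → ℝ} (hΦ : Measurable (Function.uncurry Φ)) {B : ℝ}
    (hB : ∀ x a, |Φ x a| ≤ B) : ∃ h : A → ι → ℝ, Measurable h ∧ (∃ B', ∀ x, ‖h x‖ ≤ B') ∧
      ∀ x, (∃ w, ∀ᵐ a ∂μ, Φ x a = w ⬝ᵥ F a) → ∀ᵐ a ∂μ, Φ x a = h x ⬝ᵥ F a := by
  classical
  have hi := int_of_bdd hF hC
  obtain ⟨Bq, hBq⟩ := exists_ginv (gramM μ F).mulVecLin
  let Bc := LinearMap.toContinuousLinearMap Bq
  refine ⟨fun x => Bc fun k => ∫ a, Φ x a * F a k ∂μ, Bc.continuous.measurable.comp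
    (measurable_pi_lambda _ fun k => (StronglyMeasurable.integral_prod_right
      (f := fun x a => Φ x a * F a k) (Measurable.stronglyMeasurable
        (hΦ.mul ((measurable_pi_apply k).comp (hF.comp measurable_snd))))).measurable),
    ⟨‖Bc‖ * (|B| * |C| * μ.real Set.univ), fun x => Bc.le_opNorm_of_le
      ((pi_norm_le_iff_of_nonneg (by positivity)).2 fun k =>
        norm_integral_le_of_norm_le_const (hC.mono fun a ha => ?_))⟩, fun x ⟨w, hw⟩ => ?_⟩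
  · rw [norm_mul]
    exact mul_le_mul ((hB x a).trans (le_abs_self B))
      ((norm_le_pi_norm _ k).trans (ha.trans (le_abs_self C))) (norm_nonneg _) (abs_nonneg _)
  · have h1 : (fun k => ∫ a, Φ x a * F a k ∂μ) = gramM μ F *ᵥ w := by
      funext k
      have := dot_gram hi (Pi.single k 1) w
      rw [single_dotProduct, one_mul] at this
      rw [this]
      refine integral_congr_ae (hw.mono fun a ha => ?_)
      simp only [ha, single_dotProduct, one_mul]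
      ring
    have h2 : gramM μ F *ᵥ (Bq (gramM μ F *ᵥ w) - w) = 0 := by
      rw [mulVec_sub, sub_eq_zero]
      exact hBq w
    have h3 := ae_of_gram hi (w := Bq (gramM μ F *ᵥ w) - w) (by rw [h2, dotProduct_zero])
    filter_upwards [hw, h3] with a h4 h5
    rw [sub_dotProduct, sub_eq_zero] at h5
    rw [h1, h4, ← h5]
    rfl

variable {n : ℕ}

/-- the functional given by a mark -/
noncomputable def dotL (ν : E n) : E n →L[ℝ] ℝ := LinearMap.toContinuousLinearMap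
  { toFun := fun v => v ⬝ᵥ ν
    map_add' := fun _ _ => add_dotProduct _ _ _
    map_smul' := fun _ _ => smul_dotProduct _ _ _ }

theorem dotL_apply (ν v : E n) : dotL ν v = v ⬝ᵥ ν := rfl

theorem dir_split {F : Type*} [NormedAddCommGroup F] [NormedSpace ℝ F] (L : ℝ × ℝ →L[ℝ] F)
    (t : ℝ) : L (1, t) = L (1, 0) + t • L (0, 1) := by
  rw [← map_smul, ← map_add]
  simp

theorem off_shift (Y : ℝ × ℝ) (s t : ℝ) :
    (Y + s • ((1, t) : ℝ × ℝ)).2 - t * (Y + s • ((1, t) : ℝ × ℝ)).1 = Y.2 - t * Y.1 := by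
  simp
  ring

theorem ev_mem_Q {q : ℝ} {X : ℝ × ℝ} (hX : X ∈ Q q) : ∀ᶠ j in atTop, X ∈ Q (q - rad j) := by
  obtain ⟨⟨a1, a2⟩, a3, a4⟩ := hX
  have h1 : 0 < min (min (X.1 + q) (q - X.1)) (min (X.2 + q) (q - X.2)) := by
    simp only [lt_min_iff]
    refine ⟨⟨?_, ?_⟩, ?_, ?_⟩ <;> linarith
  filter_upwards [rad_tendsto.eventually (gt_mem_nhds h1)] with j hj
  simp only [lt_min_iff] at hj
  refine ⟨⟨?_, ?_⟩, ?_, ?_⟩ <;> linarith [hj.1.1, hj.1.2, hj.2.1, hj.2.2]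

/-- the features of a mark -/
def Ft (ν : E n) : Fin (n + 2) ⊕ Fin (n + 2) → ℝ := Sum.elim ν (ν 1 • ν)

theorem dot_Ft (w : Fin (n + 2) ⊕ Fin (n + 2) → ℝ) (ν : E n) :
    w ⬝ᵥ Ft ν = (w ∘ Sum.inl) ⬝ᵥ ν + ν 1 * ((w ∘ Sum.inr) ⬝ᵥ ν) := by
  simp [dotProduct, Ft, Finset.mul_sum, mul_left_comm]

theorem meas_Ft : Measurable (Ft : E n → _) := by
  refine measurable_pi_lambda _ fun k => ?_
  rcases k with k | k
  · exact measurable_pi_apply k
  · exact (measurable_pi_apply 1).mul (measurable_pi_apply k)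

theorem norm_Ft {ν : E n} {C : ℝ} (h : ‖ν‖ ≤ C) : ‖Ft ν‖ ≤ C + C * C := by
  have h0 := (norm_nonneg _).trans h
  refine (pi_norm_le_iff_of_nonneg (by positivity)).2 fun k => ?_
  rcases k with k | k
  · exact ((norm_le_pi_norm ν k).trans h).trans (le_add_of_nonneg_right (by positivity))
  · refine le_trans ?_ (le_add_of_nonneg_left h0)
    change ‖ν 1 * ν k‖ ≤ _
    rw [norm_mul]
    exact mul_le_mul ((norm_le_pi_norm ν 1).trans h) ((norm_le_pi_norm ν k).trans h)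
      (norm_nonneg _) h0

theorem span1 (μ : Measure (E n)) [IsFiniteMeasure μ] {C : ℝ} (hC : ∀ᵐ ν ∂μ, ‖ν‖ ≤ C) (q : ℝ)
    {φ σ : E n × ℝ → ℝ} (hφ : Measurable φ) {B : ℝ} (hb : ∀ y, |φ y| ≤ B) {K : ℝ × ℝ → E n}
    (hK : LocallyIntegrable K volume)
    (hrel : ∀ᵐ ν ∂μ, ∀ᵐ X ∂(volume.restrict (Q q)),
      σ (ν, X.2 - ν 1 * X.1) + X.1 * φ (ν, X.2 - ν 1 * X.1) = K X ⬝ᵥ ν) :
    ∃ h1 h2 : ℝ × ℝ → E n, Measurable h1 ∧ Measurable h2 ∧
      (∃ B : ℝ, ∀ X, ‖h1 X‖ ≤ B ∧ ‖h2 X‖ ≤ B) ∧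
      ∀ᵐ X ∂(volume.restrict (Q q)), ∀ᵐ ν ∂μ,
        φ (ν, X.2 - ν 1 * X.1) = h1 X ⬝ᵥ ν + ν 1 * (h2 X ⬝ᵥ ν) := by
  have hΦ : Measurable (Function.uncurry fun (X : ℝ × ℝ) (ν : E n) => φ (ν, X.2 - ν 1 * X.1)) :=
    hφ.comp (by fun_prop)
  obtain ⟨h, h1, ⟨B', h2⟩, h3⟩ := select μ meas_Ft (hC.mono fun _ => norm_Ft) hΦ fun _ _ => hb _
  refine ⟨fun X => h X ∘ Sum.inl, fun X => h X ∘ Sum.inr, by fun_prop, by fun_prop,
    ⟨B', fun X => ⟨?_, ?_⟩⟩, ?_⟩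
  · exact (pi_norm_le_iff_of_nonneg ((norm_nonneg _).trans (h2 X))).2 fun k =>
      (norm_le_pi_norm (h X) _).trans (h2 X)
  · exact (pi_norm_le_iff_of_nonneg ((norm_nonneg _).trans (h2 X))).2 fun k =>
      (norm_le_pi_norm (h X) _).trans (h2 X)
  have h4 : ∀ᵐ ν ∂μ, ∀ᵐ X ∂(volume.restrict (Q q)), Tendsto (fun j =>
      fderiv ℝ (mol j K) X (1, 0) ⬝ᵥ ν + ν 1 * (fderiv ℝ (mol j K) X (0, 1) ⬝ᵥ ν)) atTop
      (𝓝 (φ (ν, X.2 - ν 1 * X.1))) := by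
    filter_upwards [hrel] with ν hν
    have h5 := mol_tendsto (locInt (f := fun X : ℝ × ℝ => φ (ν, X.2 - ν 1 * X.1))
      (hφ.comp (by fun_prop)) fun _ => hb _)
    filter_upwards [ae_restrict_of_ae h5, ae_restrict_mem (isOpen_Q q).measurableSet] with X h6 h7
    refine h6.congr' ((ev_mem_Q h7).mono fun j hj => ?_)
    have h8 := mol_dir j hK (dotL ν) (Φ := fun X : ℝ × ℝ => φ (ν, X.2 - ν 1 * X.1))
      (v := (1, ν 1)) hν (fun Y s e1 e2 => by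
        rw [off_shift] at e2
        rw [dotL_apply, dotL_apply, ← e1, ← e2]
        simp
        ring) hj
    rw [dir_split, map_add, map_smul] at h8
    exact h8.symm
  have hmeas : ∀ j, Measurable fun y : E n × (ℝ × ℝ) =>
      fderiv ℝ (mol j K) y.2 (1, 0) ⬝ᵥ y.1 + y.1 1 * (fderiv ℝ (mol j K) y.2 (0, 1) ⬝ᵥ y.1) := by
    intro j
    have h5 : Continuous (fderiv ℝ (mol j K)) := (mol_smooth j hK).continuous_fderiv (by simp)
    exact Continuous.measurable (by fun_prop)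
  have h4' := (Measure.ae_ae_comm (measurableSet_tendsto_fun hmeas
    (hφ.comp (f := fun y : E n × (ℝ × ℝ) => (y.1, y.2.2 - y.1 1 * y.2.1)) (by fun_prop)))).1 h4
  filter_upwards [h4'] with X hX
  obtain ⟨w, hw⟩ := fd_limit (LinearMap.pi fun ν : E n =>
      { toFun := fun w => w ⬝ᵥ Ft ν
        map_add' := fun _ _ => add_dotProduct _ _ _
        map_smul' := fun _ _ => smul_dotProduct _ _ _ })
    (fun j => Sum.elim (fderiv ℝ (mol j K) X (1, 0)) (fderiv ℝ (mol j K) X (0, 1)))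
    (fun ν => φ (ν, X.2 - ν 1 * X.1)) _
    (fun ν hν => Tendsto.congr (fun j => (dot_Ft (Sum.elim _ _) ν).symm) hν)
  exact (h3 X ⟨w, hX.mono hw⟩).mono fun ν hν => hν.trans (dot_Ft _ _)

variable {m : Fin 3 → Measure (E n)} {κ : Measure (Fin 3 → E n)} {C0 c1 : NNReal}

theorem ae_swap {α β : Type*} [MeasurableSpace α] [MeasurableSpace β] {μ : Measure α}
    {ν : Measure β} [SFinite μ] [SFinite ν] {p : α × β → Prop} (h : ∀ᵐ y ∂(μ.prod ν), p y) :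
    ∀ᵐ b ∂ν, ∀ᵐ a ∂μ, p (a, b) :=
  Measure.ae_ae_of_ae_prod (Measure.measurePreserving_swap.quasiMeasurePreserving.ae h)

/-- gluing of functions of the three families -/
noncomputable def gl (φ : Fin 3 → E n × ℝ → ℝ) (y : E n × ℝ) : ℝ :=
  if 1 / 2 < y.1 1 then φ 0 y else if y.1 1 < -1 / 2 then φ 1 y else φ 2 y

theorem gl_eq (φ : Fin 3 → E n × ℝ → ℝ) {i : Fin 3} {ν : E n} (h : |ν 1 - ctr i| ≤ 1 / 100)
    (s : ℝ) : gl φ (ν, s) = φ i (ν, s) := by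
  rw [abs_le] at h
  fin_cases i <;> simp only [ctr, Fin.zero_eta, Fin.mk_one, Fin.reduceFinMk, Matrix.cons_val_zero,
    Matrix.cons_val_one, Matrix.cons_val] at h ⊢
  · exact if_pos (by linarith [h.1])
  · exact (if_neg (by linarith [h.2])).trans (if_pos (by linarith [h.2]))
  · exact (if_neg (by linarith [h.2])).trans (if_neg (by linarith [h.1]))

theorem span (h : MS0 m κ C0 c1) (q : ℝ) (φ σ : Fin 3 → E n × ℝ → ℝ)
    (hφ : ∀ i, Measurable (φ i)) (hb : ∃ B : ℝ, ∀ i y, |φ i y| ≤ B ∧ |σ i y| ≤ B)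
    (K : ℝ × ℝ → E n) (hK : Measurable K) (hKb : ∃ B : ℝ, ∀ X, ‖K X‖ ≤ B)
    (hrel : ∀ i, ∀ᵐ y ∂((volume.restrict (Q q)).prod (m i)),
      σ i (y.2, y.1.2 - y.2 1 * y.1.1) + y.1.1 * φ i (y.2, y.1.2 - y.2 1 * y.1.1)
        = K y.1 ⬝ᵥ y.2) :
    ∃ h1 h2 : ℝ × ℝ → E n, Measurable h1 ∧ Measurable h2 ∧
      (∃ B : ℝ, ∀ X, ‖h1 X‖ ≤ B ∧ ‖h2 X‖ ≤ B) ∧
      ∀ i, ∀ᵐ y ∂((volume.restrict (Q q)).prod (m i)),
        φ i (y.2, y.1.2 - y.2 1 * y.1.1) = h1 y.1 ⬝ᵥ y.2 + y.2 1 * (h2 y.1 ⬝ᵥ y.2) := by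
  have := h.fin_m
  obtain ⟨C, hC⟩ := h.bdd
  obtain ⟨B, hB⟩ := hb
  obtain ⟨BK, hBK⟩ := hKb
  have hm : Measurable (gl φ) :=
    Measurable.ite (measurableSet_lt measurable_const (by fun_prop)) (hφ 0)
      (Measurable.ite (measurableSet_lt (by fun_prop) measurable_const) (hφ 1) (hφ 2))
  obtain ⟨h1, h2, m1, m2, hb, h3⟩ := span1 (Measure.sum m)
    (Measure.ae_sum_iff.2 fun i => (hC i).mono fun _ h => h.1) q (σ := gl σ) hm (B := B)
    (fun y => by unfold gl; split_ifs <;> exact (hB _ _).1) (locInt hK hBK)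
    (Measure.ae_sum_iff.2 fun i => by
      filter_upwards [ae_swap (hrel i), hC i] with ν h4 h5
      simpa only [gl_eq _ h5.2.2] using h4)
  refine ⟨h1, h2, m1, m2, hb, fun i => (Measure.ae_prod_iff_ae_ae (measurableSet_eq_fun
    ((hφ i).comp (by fun_prop)) ?_)).2 ?_⟩
  · simp only [dotProduct]
    fun_prop
  · filter_upwards [h3] with X hX
    filter_upwards [Measure.ae_sum_iff.1 hX i, hC i] with ν h4 h5
    rwa [gl_eq _ h5.2.2] at h4

end ECub.M
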