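import Pool.Agent.P.MP_029dcd_co.F.M.Alg
import Pool.Agent.P.MP_029dcd_co.F.M.Span
import Pool.Agent.P.MP_029dcd_co.F.M.Pde

/-! Layer M: macroscopic deformations are trivial. -/

set_option autoImplicit false

namespace ECub.M

open MeasureTheory Filter Topology Finset Matrix
open scoped ENNReal ContDiff

variable {n : ℕ} {m : Fin 3 → Measure (E n)} {κ : Measure (Fin 3 → E n)} {C0 c1 : NNReal}
  {b c : Fin 3}

/-- the coefficients of a macroscopic deformation at a point -/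
abbrev W (n : ℕ) := (Fin (n + 2) → E n) × E n

/-- a matrix entry -/
noncomputable def ent (k j : Fin (n + 2)) : W n →L[ℝ] ℝ :=
  (ContinuousLinearMap.proj j : E n →L[ℝ] ℝ).comp
    ((ContinuousLinearMap.proj k : (Fin (n + 2) → E n) →L[ℝ] E n).comp
      (ContinuousLinearMap.fst ℝ _ _))

/-- an entry of the last row -/
noncomputable def ent' (j : Fin (n + 2)) : W n →L[ℝ] ℝ :=
  (ContinuousLinearMap.proj j : E n →L[ℝ] ℝ).comp (ContinuousLinearMap.snd ℝ _ _)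

/-- the mark components of the deformation -/
noncomputable def lk (ν : E n) (k : Fin (n + 2)) : W n →L[ℝ] ℝ :=
  -(ν k) • (dotL ν).comp ((ContinuousLinearMap.proj 0 : (Fin (n + 2) → E n) →L[ℝ] E n).comp
      (ContinuousLinearMap.fst ℝ _ _)) +
    (dotL ν).comp ((ContinuousLinearMap.proj k : (Fin (n + 2) → E n) →L[ℝ] E n).comp
      (ContinuousLinearMap.fst ℝ _ _))

/-- the height component of the deformation -/
noncomputable def lC (ν : E n) : W n →L[ℝ] ℝ := (dotL ν).comp (ContinuousLinearMap.snd ℝ _ _)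

theorem lk_apply (ν : E n) (k : Fin (n + 2)) (F : W n) :
    lk ν k F = -(ν k) * (F.1 0 ⬝ᵥ ν) + F.1 k ⬝ᵥ ν := rfl

theorem lC_apply (ν : E n) (F : W n) : lC ν F = F.2 ⬝ᵥ ν := rfl

theorem D_clm {F : Type*} [NormedAddCommGroup F] [NormedSpace ℝ F] (ℓ : F →L[ℝ] ℝ)
    {g : ℝ × ℝ → F} (hg : ContDiff ℝ ∞ g) (v X : ℝ × ℝ) :
    D v (fun X => ℓ (g X)) X = ℓ (fderiv ℝ g X v) := by
  have := (ℓ.hasFDerivAt.comp X (hg.differentiable (by simp) X).hasFDerivAt).fderiv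
  unfold D
  rw [show (fun X => ℓ (g X)) = ℓ ∘ g from rfl, this]
  rfl

theorem dot_dl (k : Fin (n + 2)) (ν : E n) : (fun j => dl j k) ⬝ᵥ ν = ν k := by
  simp [dotProduct, dl]

theorem dl_dot (k : Fin (n + 2)) (ν : E n) : dl k ⬝ᵥ ν = ν k := by
  simp [dotProduct, dl]

/-- the linear map with the given coefficients -/
def gam (y c0 : E n) (a : Fin (n + 2) → E n) : H n →ₗ[ℝ] H n where
  toFun f := (fun k => a k ⬝ᵥ f.1 + y k * f.2, c0 ⬝ᵥ f.1)
  map_add' f g := by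
    ext k
    · simp
      ring
    · simp
  map_smul' r f := by
    ext k
    · simp
      ring
    · simp

theorem smooth_triv (h : MS m κ C0 c1 b c) {U : Set (ℝ × ℝ)} (hU : IsOpen U)
    (hc : IsPreconnected U) {g : ℝ × ℝ → W n} (hg : ContDiff ℝ ∞ g)
    (H1 : ∀ X ∈ U, ∀ i, ∀ᵐ ν ∂(m i), (∀ k, lk ν k (fderiv ℝ g X (1, ν 1)) = 0) ∧
      lC ν (fderiv ℝ g X (1, ν 1)) = lk ν 1 (g X)) :
    ∃ γ : H n →ₗ[ℝ] H n, ∀ X ∈ U, ∀ ν : E n, ν 0 = 1 →
      triv γ (ν, X.2 - ν 1 * X.1) = (fun k => lk ν k (g X), lC ν (g X) - X.1 * lk ν 1 (g X)) := by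
  obtain ⟨y, c0, a, h1⟩ := pde hU hc (K := fun k j X => ent k j (g X))
    (C := fun j X => ent' j (g X)) (fun k j => (ent k j).contDiff.comp hg)
    (fun j => (ent' j).contDiff.comp hg) (fun X hX => by
      obtain ⟨z0, z1, y, h1, h2⟩ := alg (Matrix.of (fderiv ℝ g X (1, 0)).1)
        (Matrix.of (fderiv ℝ g X (0, 1)).1) h fun i => (H1 X hX i).mono fun ν hν =>
          ⟨(fderiv ℝ g X (1, 0)).1 0 ⬝ᵥ ν + ν 1 * ((fderiv ℝ g X (0, 1)).1 0 ⬝ᵥ ν),
            funext fun k => by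
              have e := hν.1 k
              rw [dir_split, map_add, map_smul, lk_apply, lk_apply] at e
              change (fderiv ℝ g X (1, 0)).1 k ⬝ᵥ ν + ν 1 * ((fderiv ℝ g X (0, 1)).1 k ⬝ᵥ ν) = _ * _
              rw [smul_eq_mul] at e
              linear_combination e⟩
      refine ⟨z0, z1, y, fun k j => ?_, fun k j => ?_⟩
      · rw [D_clm _ hg, ← dl_ite, ← dl_ite]
        exact h1 k j
      · rw [D_clm _ hg, ← dl_ite, ← dl_ite]
        exact h2 k j)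
    (fun X hX => by
      obtain ⟨e, h1, h2⟩ := ker h ((fderiv ℝ g X (1, 0)).2 - (g X).1 1)
        ((fderiv ℝ g X (0, 1)).2 + (g X).1 0) fun i => (H1 X hX i).mono fun ν hν => by
          have e := hν.2
          rw [dir_split, map_add, map_smul, lk_apply, lC_apply, lC_apply, smul_eq_mul] at e
          rw [sub_dotProduct, add_dotProduct]
          linear_combination e
      refine ⟨e, fun j => ?_, fun j => ?_⟩
      · rw [D_clm _ hg, ← dl_ite]
        exact h1 j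
      · rw [D_clm _ hg, ← dl_ite]
        exact h2 j)
  refine ⟨gam y c0 a, fun X hX ν hν => ?_⟩
  obtain ⟨⟨Z, h2⟩, h3⟩ := h1 X hX
  have h4 : ∀ k, (g X).1 k ⬝ᵥ ν = Z * ν k + y k * (X.2 - ν 1 * X.1) + a k ⬝ᵥ ν := fun k => by
    have : (g X).1 k = Z • dl k + (y k * X.2) • (fun j => dl j 0) - (y k * X.1) • (fun j => dl j 1)
        + a k := funext fun j => (h2 k j).trans (by simp [mul_comm])
    rw [this, add_dotProduct, sub_dotProduct, add_dotProduct, smul_dotProduct, smul_dotProduct,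
      smul_dotProduct, dot_dl, dot_dl, dl_dot, hν]
    simp only [smul_eq_mul]
    ring
  have h5 : (g X).2 ⬝ᵥ ν = X.1 * (a 1 ⬝ᵥ ν) - X.2 * (a 0 ⬝ᵥ ν)
      + (y 1 * X.1 * X.2 - y 0 * X.2 * X.2) + (y 0 * X.1 * X.2 - y 1 * X.1 * X.1) * ν 1
      + c0 ⬝ᵥ ν := by
    have : (g X).2 = X.1 • a 1 - X.2 • a 0 + (y 1 * X.1 * X.2 - y 0 * X.2 * X.2) • (fun j => dl j 0)
        + (y 0 * X.1 * X.2 - y 1 * X.1 * X.1) • (fun j => dl j 1) + c0 :=
      funext fun j => (h3 j).trans (by simp [mul_comm])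
    rw [this, add_dotProduct, add_dotProduct, add_dotProduct, sub_dotProduct, smul_dotProduct,
      smul_dotProduct, smul_dotProduct, smul_dotProduct, dot_dl, dot_dl, hν]
    simp only [smul_eq_mul]
    ring
  ext k
  · change a k ⬝ᵥ ν + y k * (X.2 - ν 1 * X.1) - (a 0 ⬝ᵥ ν + y 0 * (X.2 - ν 1 * X.1)) * ν k
      = lk ν k (g X)
    rw [lk_apply, h4, h4, hν]
    ring
  · change c0 ⬝ᵥ ν - (a 0 ⬝ᵥ ν + y 0 * (X.2 - ν 1 * X.1)) * (X.2 - ν 1 * X.1)
      = lC ν (g X) - X.1 * lk ν 1 (g X)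
    rw [lk_apply, lC_apply, h4, h4, h5, hν]
    ring

/-- trivial deformations depend linearly on the linear map -/
def trivL : (H n →ₗ[ℝ] H n) →ₗ[ℝ] ((ℝ × ℝ) × E n → H n) where
  toFun γ y := triv γ (y.2, y.1.2 - y.2 1 * y.1.1)
  map_add' γ γ' := funext fun y => by
    simp only [triv, LinearMap.add_apply, Prod.fst_add, Pi.add_apply, add_smul]
    abel
  map_smul' r γ := funext fun y => by
    simp only [triv, LinearMap.smul_apply, Prod.smul_fst, Pi.smul_apply, RingHom.id_apply,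
      smul_sub, smul_eq_mul, mul_smul]

theorem global (h : MS m κ C0 c1 b c) (q q' : ℝ) (hq : q' < q) (u : Fin 3 → E n × ℝ → H n)
    (K : Fin (n + 2) → ℝ × ℝ → E n) (Cc : ℝ × ℝ → E n) (hK : ∀ k, Measurable (K k))
    (hC : Measurable Cc) (hKb : ∃ B : ℝ, ∀ X, (∀ k, ‖K k X‖ ≤ B) ∧ ‖Cc X‖ ≤ B)
    (hrel : ∀ i, ∀ᵐ y ∂((volume.restrict (Q q)).prod (m i)),
      (∀ k, (u i (y.2, y.1.2 - y.2 1 * y.1.1)).1 k
        = -(y.2 k) * (K 0 y.1 ⬝ᵥ y.2) + K k y.1 ⬝ᵥ y.2) ∧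
      (u i (y.2, y.1.2 - y.2 1 * y.1.1)).2 + y.1.1 * (u i (y.2, y.1.2 - y.2 1 * y.1.1)).1 1
        = Cc y.1 ⬝ᵥ y.2) :
    ∃ γ : H n →ₗ[ℝ] H n, ∀ i, ∀ᵐ y ∂((volume.restrict (Q q')).prod (m i)),
      u i (y.2, y.1.2 - y.2 1 * y.1.1) = triv γ (y.2, y.1.2 - y.2 1 * y.1.1) := by
  have := h.fin_m
  obtain ⟨B, hB⟩ := hKb
  obtain ⟨B', hB'⟩ := h.bdd
  let f : ℝ × ℝ → W n := fun X => (fun k => K k X, Cc X)
  have hf : LocallyIntegrable f volume := locInt (B := B) ((measurable_pi_lambda _ hK).prodMk hC)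
    fun X => norm_prod_le_iff.2 ⟨(pi_norm_le_iff_of_nonneg
      ((norm_nonneg _).trans (hB X).2)).2 (hB X).1, (hB X).2⟩
  have hsub : ∀ r, q' ≤ r → Q q' ⊆ Q r := fun r hr => Set.prod_mono
    (Set.Ioo_subset_Ioo (neg_le_neg hr) hr) (Set.Ioo_subset_Ioo (neg_le_neg hr) hr)
  obtain ⟨j0, hj0⟩ := eventually_atTop.1 (rad_tendsto.eventually (gt_mem_nhds (sub_pos.2 hq)))
  have key : ∀ j, ∃ γ : H n →ₗ[ℝ] H n, ∀ X ∈ Q q', ∀ ν : E n, ν 0 = 1 →
      triv γ (ν, X.2 - ν 1 * X.1) = (fun k => lk ν k (mol (j + j0) f X),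
        lC ν (mol (j + j0) f X) - X.1 * lk ν 1 (mol (j + j0) f X)) := fun j =>
    smooth_triv h (isOpen_Q q') (isPreconnected_Ioo.prod isPreconnected_Ioo) (mol_smooth _ hf)
      fun X hX i => by
        have hX' := hsub (q - rad (j + j0)) (by linarith [hj0 (j + j0) le_add_self]) hX
        filter_upwards [ae_swap (hrel i)] with ν hν
        refine ⟨fun k => ?_, ?_⟩
        · rw [mol_dir _ hf (lk ν k) (Φ := fun _ => 0) hν (fun Y s e1 e2 => ?_) hX']
          · simp [mol, convolution_lsmul]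
          · rw [off_shift] at e2
            rw [mul_zero, sub_eq_zero]
            exact (e2.1 k).symm.trans (e1.1 k)
        · rw [mol_clm _ hf, mol_dir _ hf (lC ν) (Φ := fun Y => lk ν 1 (f Y)) hν
            (fun Y s e1 e2 => ?_) hX']
          rw [off_shift] at e2
          have e3 : lk ν 1 (f Y) = _ := (e1.1 1).symm
          have e4 : lC ν (f Y) = _ := e1.2.symm
          have e5 : lC ν (f (Y + s • (1, ν 1))) = _ := e2.2.symm
          rw [e3, e4, e5]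
          simp
          ring
  choose γ hγ using key
  obtain ⟨γ0, h0⟩ := fd_limit trivL γ
    (fun y => (fun k => lk y.2 k (f y.1), lC y.2 (f y.1) - y.1.1 * lk y.2 1 (f y.1)))
    {y | y.1 ∈ Q q' ∧ y.2 0 = 1 ∧ Tendsto (fun j => mol j f y.1) atTop (𝓝 (f y.1))}
    fun y ⟨h1, h2, h3⟩ => by
      have h4 : Continuous fun F : W n =>
          ((fun k => lk y.2 k F, lC y.2 F - y.1.1 * lk y.2 1 F) : H n) := by fun_prop
      exact ((h4.tendsto _).comp (h3.comp (tendsto_add_atTop_nat j0))).congr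
        fun j => (hγ j y.1 h1 y.2 h2).symm
  refine ⟨γ0, fun i => ?_⟩
  have h1 : (volume.restrict (Q q')).prod (m i) ≪ (volume.restrict (Q q)).prod (m i) :=
    (Measure.absolutelyContinuous_of_le (Measure.restrict_mono (hsub q hq.le) le_rfl)).prod
      Measure.AbsolutelyContinuous.rfl
  filter_upwards [h1.ae_le (hrel i), Measure.quasiMeasurePreserving_snd.ae (hB' i),
    Measure.quasiMeasurePreserving_fst.ae (ae_restrict_mem (isOpen_Q q').measurableSet),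
    Measure.quasiMeasurePreserving_fst.ae (ae_restrict_of_ae (mol_tendsto hf))] with y h2 h3 h4 h5
  refine Eq.trans ?_ (h0 y ⟨h4, h3.2.1, h5⟩)
  refine Prod.ext (funext h2.1) ?_
  have e3 : lk y.2 1 (f y.1) = _ := (h2.1 1).symm
  have e4 : lC y.2 (f y.1) = _ := h2.2.symm
  change _ = lC y.2 (f y.1) - y.1.1 * lk y.2 1 (f y.1)
  rw [e3, e4]
  ring

end ECub.M
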