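import Pool.Agent.P.MP_029dcd_co.F.M.Basic

/-! Layer M: the eigenvector equation along a pencil of matrices. -/

set_option autoImplicit false

namespace ECub.M

open MeasureTheory Filter Topology Finset Matrix
open scoped ENNReal

variable {n : ℕ} {m : Fin 3 → Measure (E n)} {κ : Measure (Fin 3 → E n)} {C0 c1 : NNReal}
  {b c : Fin 3}

/-- square matrices of the size of the marks -/
abbrev Mt (n : ℕ) := Matrix (Fin (n + 2)) (Fin (n + 2)) ℝ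

theorem eig_fin (f : E n →ₗ[ℝ] E n) : {l : ℝ | ∃ v, v ≠ 0 ∧ f v = l • v}.Finite :=
  (Module.End.finite_hasEigenvalue f).subset fun _ ⟨_, h1, h2⟩ =>
    Module.End.hasEigenvalue_of_hasEigenvector ⟨Module.End.mem_eigenspace_iff.2 h2, h1⟩

/-- the real eigenvalues -/
def Eig (M : Mt n) : Set ℝ := {l | ∃ v, v ≠ 0 ∧ M *ᵥ v = l • v}

theorem Eig.finite (M : Mt n) : (Eig M).Finite := eig_fin M.mulVecLin

theorem cubic_fin {a : ℝ} (ha : a ≠ 0) (b c d : ℝ) :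
    {t : ℝ | a * t ^ 3 + b * t ^ 2 + c * t + d = 0}.Finite := by
  have h : (Cubic.mk a b c d).toPoly ≠ 0 := Cubic.ne_zero_of_a_ne_zero ha
  refine (Polynomial.finite_setOfPred_isRoot h).subset fun t ht => ?_
  simpa [Cubic.toPoly] using ht

theorem three {A3 A2 A1 A0 : ℝ} {t : Fin 3 → ℝ} (h01 : t 0 ≠ t 1) (h02 : t 0 ≠ t 2)
    (h12 : t 1 ≠ t 2) (e : ∀ i, A3 * t i ^ 3 + A2 * t i ^ 2 + A1 * t i + A0 = 0) :
    A2 = -A3 * (t 0 + t 1 + t 2) ∧ (A3 = 0 → A1 = 0 ∧ A0 = 0) := by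
  have h1 : A2 = -A3 * (t 0 + t 1 + t 2) := by
    refine mul_left_cancel₀ (mul_ne_zero (mul_ne_zero (sub_ne_zero.2 h01) (sub_ne_zero.2 h02))
      (sub_ne_zero.2 h12)) ?_
    linear_combination (t 1 - t 2) * e 0 - (t 0 - t 2) * e 1 + (t 0 - t 1) * e 2
  refine ⟨h1, fun h3 => ?_⟩
  have h2 : A2 = 0 := by rw [h1, h3]; ring
  have h4 : A1 = 0 := by
    refine mul_left_cancel₀ (sub_ne_zero.2 h01) ?_
    linear_combination e 0 - e 1 - (t 0 ^ 3 - t 1 ^ 3) * h3 - (t 0 ^ 2 - t 1 ^ 2) * h2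
  exact ⟨h4, by linear_combination e 0 - t 0 ^ 3 * h3 - t 0 ^ 2 * h2 - t 0 * h4⟩

variable (M0 M1 : Mt n)

/-- directions that are determined by a mark up to finitely many choices -/
def Dir (ν β : E n) : Prop :=
  ν 0 = 1 ∧ β 0 = 0 ∧ β 1 = 1 ∧ (M1 *ᵥ β) 0 ≠ 0 ∧
    M1 *ᵥ β = ((M1 *ᵥ β) 1 - (M1 *ᵥ β) 0 * ν 1) • β + (M1 *ᵥ β) 0 • ν ∧
    (M1 *ᵥ β) 1 - (M1 *ᵥ β) 0 * ν 1 ∉ Eig M1

/-- the cubic equation for the slopes -/
def Cb (α β : E n) (t : ℝ) : Prop :=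
  (M1 *ᵥ β) 0 * t ^ 3 + ((M0 *ᵥ β) 0 + (M1 *ᵥ α) 0 - (M1 *ᵥ β) 1) * t ^ 2 +
    ((M0 *ᵥ α) 0 - (M0 *ᵥ β) 1 - (M1 *ᵥ α) 1) * t + -(M0 *ᵥ α) 1 = 0

theorem dir_fin (ν : E n) : {β | Dir M1 ν β}.Finite := by
  refine Set.Finite.of_injOn (f := fun β => (M1 *ᵥ β) 1 - (M1 *ᵥ β) 0 * ν 1) ?_ ?_
    (eig_fin (M1.mulVecLin - ((LinearMap.proj 0).comp M1.mulVecLin).smulRight ν))
  · rintro β ⟨-, -, h2, -, h4, -⟩
    refine ⟨β, fun h0 => by simp [h0] at h2, ?_⟩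
    exact sub_eq_iff_eq_add.2 h4
  · rintro β ⟨-, -, h2, h3, h4, h5⟩ β' ⟨-, -, k2, -, k4, -⟩ he
    simp only at he
    rw [← he] at k4
    generalize (M1 *ᵥ β) 1 - (M1 *ᵥ β) 0 * ν 1 = l at h4 h5 k4
    generalize (M1 *ᵥ β) 0 = w at h3 h4
    generalize (M1 *ᵥ β') 0 = w' at k4
    have h6 : w' • β - w • β' = 0 := by
      by_contra h7
      refine h5 ⟨_, h7, ?_⟩
      rw [mulVec_sub, mulVec_smul, mulVec_smul, h4, k4]
      module
    have h7 : w' = w := by simpa [h2, k2, sub_eq_zero] using congrFun h6 1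
    rw [h7, ← smul_sub, smul_eq_zero] at h6
    exact sub_eq_zero.1 (h6.resolve_left h3)

theorem bad_fin (ν : E n) : {t | ∃ β, Dir M1 ν β ∧ Cb M0 M1 (ν - ν 1 • β) β t}.Finite := by
  refine ((dir_fin M1 ν).biUnion (t := fun β => {t | Cb M0 M1 (ν - ν 1 • β) β t})
    fun β hβ => cubic_fin hβ.2.2.2.1 _ _ _).subset ?_
  rintro t ⟨β, h1, h2⟩
  exact Set.mem_biUnion h1 h2

theorem cont_mv (M : Mt n) : Continuous fun v : E n => M *ᵥ v :=
  continuous_const.matrix_mulVec continuous_id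

theorem meas_bad : MeasurableSet {p : E n × E n × ℝ |
    Dir M1 p.1 p.2.1 ∧ Cb M0 M1 (p.1 - p.1 1 • p.2.1) p.2.1 p.2.2} := by
  have h0 := cont_mv M0
  have h1 := cont_mv M1
  have e : ∀ {f g : E n × E n × ℝ → ℝ}, Continuous f → Continuous g →
      MeasurableSet {p | f p = g p} := fun hf hg => (isClosed_eq hf hg).measurableSet
  refine MeasurableSet.inter (MeasurableSet.inter (e ?_ ?_) (MeasurableSet.inter (e ?_ ?_)
    (MeasurableSet.inter (e ?_ ?_) (MeasurableSet.inter (e ?_ ?_).compl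
      (MeasurableSet.inter (isClosed_eq ?_ ?_).measurableSet
        (Continuous.measurable ?_ (Eig.finite M1).measurableSet.compl)))))) (e ?_ ?_)
  all_goals fun_prop

theorem ae_not_bad (h : MS m κ C0 c1 b c) {k i : Fin 3} (hki : k ≠ i) (hi : i = b ∨ i = c) :
    ∀ᵐ x ∂κ, ¬(Dir M1 (x k) ((x i 1 - x k 1)⁻¹ • (x i - x k)) ∧
      Cb M0 M1 (x k - x k 1 • ((x i 1 - x k 1)⁻¹ • (x i - x k)))
        ((x i 1 - x k 1)⁻¹ • (x i - x k)) (x i 1)) := by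
  have := h.fin_m
  have hm : Measurable fun y : E n × E n =>
      (y.1, (y.2 1 - y.1 1)⁻¹ • (y.2 - y.1), y.2 1) := by fun_prop
  refine up2 h.toMS0 hki (p := fun y => ¬(Dir M1 y.1 ((y.2 1 - y.1 1)⁻¹ • (y.2 - y.1)) ∧
      Cb M0 M1 (y.1 - y.1 1 • ((y.2 1 - y.1 1)⁻¹ • (y.2 - y.1)))
        ((y.2 1 - y.1 1)⁻¹ • (y.2 - y.1)) (y.2 1))) ?_
  refine (Measure.ae_prod_iff_ae_ae (hm (meas_bad M0 M1)).compl).2 (Eventually.of_forall fun ν => ?_)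
  filter_upwards [ae_slope_ne (nonat h hi) (bad_fin M0 M1 ν)] with ν' h1 h2
  exact h1 ⟨_, h2⟩

/-- the structure of the pencil on a triple -/
def Rel (f : ℝ × ℝ) (x : Fin 3 → E n) : Prop :=
  ∃ y : E n, ∀ i, M1 *ᵥ x i - f.2 • x i = y ∧ M0 *ᵥ x i - f.1 • x i = -(x i 1) • y

theorem ae_rel (h : MS m κ C0 c1 b c)
    (hM : ∀ i, ∀ᵐ ν ∂(m i), ∃ z : ℝ, M0 *ᵥ ν + ν 1 • M1 *ᵥ ν = z • ν) :
    ∀ᵐ x ∂κ, ∃ f ∈ Eig M0 ×ˢ Eig M1, Rel M0 M1 f x := by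
  have hR : ((fun p : ℝ × ℝ × ℝ => (p.1 - p.2.1) / (p.2.1 - p.2.2)) ''
      (Eig M1 ×ˢ Eig M1 ×ˢ Eig M1)).Finite :=
    ((Eig.finite M1).prod ((Eig.finite M1).prod (Eig.finite M1))).image _
  have h1 := (ae_ball_iff hR.countable).2 fun r _ =>
    (show ∀ᵐ x ∂κ, ¬(x 0 1 - x 1 1 = r * (x 1 1 - x 2 1)) by simpa [ae_iff] using h.ratio r)
  have h2 : ∀ᵐ x ∂κ, ∀ k, ∃ i, k ≠ i ∧ ¬(Dir M1 (x k) ((x i 1 - x k 1)⁻¹ • (x i - x k)) ∧
      Cb M0 M1 (x k - x k 1 • ((x i 1 - x k 1)⁻¹ • (x i - x k)))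
        ((x i 1 - x k 1)⁻¹ • (x i - x k)) (x i 1)) := by
    refine ae_all_iff.2 fun k => ?_
    by_cases hk : k = b
    · have hc : k ≠ c := hk ▸ h.bc
      exact (ae_not_bad M0 M1 h hc (Or.inr rfl)).mono fun x hx => ⟨c, hc, hx⟩
    · exact (ae_not_bad M0 M1 h hk (Or.inl rfl)).mono fun x hx => ⟨b, hk, hx⟩
  filter_upwards [ae_tri h.toMS0, ae_all_iff.2 fun i => up h.toMS0 i (hM i), h1, h2] with
    x hx hz hr hbad
  obtain ⟨α, β, a0, a1, b0, b1, hab⟩ := hx.ab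
  have hne : ∀ {i j}, i ≠ j → x i 1 ≠ x j 1 := hx.ne
  have hone : ∀ i, x i 0 = 1 := fun i => (hx.1 i).1
  obtain ⟨t, ht⟩ : ∃ t : Fin 3 → ℝ, ∀ i, x i 1 = t i := ⟨_, fun _ => rfl⟩
  simp only [ht] at hab hz hr hbad hne
  have key : ∀ k i, (M1 *ᵥ β) 0 * β k * t i ^ 3 +
      (((M0 *ᵥ β) 0 + (M1 *ᵥ α) 0) * β k + (M1 *ᵥ β) 0 * α k - (M1 *ᵥ β) k) * t i ^ 2 +
      ((M0 *ᵥ α) 0 * β k + ((M0 *ᵥ β) 0 + (M1 *ᵥ α) 0) * α k - (M0 *ᵥ β) k - (M1 *ᵥ α) k) * t i +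
      ((M0 *ᵥ α) 0 * α k - (M0 *ᵥ α) k) = 0 := fun k i => by
    obtain ⟨z, hz⟩ := hz i
    rw [hab i] at hz
    simp only [mulVec_add, mulVec_smul] at hz
    have e0 := congrFun hz 0
    have e1 := congrFun hz k
    simp only [Pi.add_apply, Pi.smul_apply, smul_eq_mul, a0, b0] at e0 e1
    linear_combination (α k + t i * β k) * e0 - e1
  have th := fun k => three (hne (by decide)) (hne (by decide)) (hne (by decide)) (key k)
  have hβ : β ≠ 0 := fun h0 => by simp [h0] at b1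
  have hα : α ≠ 0 := fun h0 => by simp [h0] at a0
  have hw : (M1 *ᵥ β) 0 = 0 := by
    by_contra hw
    have hl : ∀ k, M1 *ᵥ β = ((M1 *ᵥ β) 1 - (M1 *ᵥ β) 0 * t k) • β + (M1 *ᵥ β) 0 • x k := fun k => by
      funext j
      have e1 := (th 1).1
      have e2 := (th j).1
      rw [a1, b1] at e1
      simp only [hab k, Pi.add_apply, Pi.smul_apply, smul_eq_mul]
      linear_combination β j * e1 - e2
    have he : ∀ k, (M1 *ᵥ β) 1 - (M1 *ᵥ β) 0 * t k ∈ Eig M1 := fun k => by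
      by_contra hk
      obtain ⟨i, hki, hi⟩ := hbad k
      have e : (t i - t k)⁻¹ • (x i - x k) = β := by
        rw [hab i, hab k, add_sub_add_left_eq_sub, ← sub_smul, smul_smul,
          inv_mul_cancel₀ (sub_ne_zero.2 (hne hki).symm), one_smul]
      have e' : x k - t k • β = α := by rw [hab k, add_sub_cancel_right]
      rw [e, e'] at hi
      refine hi ⟨⟨hone k, b0, b1, hw, by rw [ht]; exact hl k, by rw [ht]; exact hk⟩, ?_⟩
      have := key 1 i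
      rw [a1, b1] at this
      unfold Cb
      linear_combination this
    refine hr _ ⟨(_, _, _), ⟨he 0, he 1, he 2⟩, rfl⟩ ?_
    have h12 : t 1 - t 2 ≠ 0 := sub_ne_zero.2 (hne (by decide))
    have e : (M1 *ᵥ β) 1 - (M1 *ᵥ β) 0 * t 1 - ((M1 *ᵥ β) 1 - (M1 *ᵥ β) 0 * t 2) =
      -(M1 *ᵥ β) 0 * (t 1 - t 2) := by ring
    simp only [e]
    field_simp
    ring
  have e1 : M1 *ᵥ β = ((M0 *ᵥ β) 0 + (M1 *ᵥ α) 0) • β := by
    funext k
    have := (th k).1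
    rw [hw] at this
    simp only [Pi.smul_apply, smul_eq_mul]
    linear_combination -this
  have e2 : M0 *ᵥ α = (M0 *ᵥ α) 0 • α := by
    funext k
    have := ((th k).2 (by rw [hw, zero_mul])).2
    simp only [Pi.smul_apply, smul_eq_mul]
    linear_combination -this
  have e3 : M0 *ᵥ β = (M0 *ᵥ α) 0 • β + ((M0 *ᵥ β) 0 + (M1 *ᵥ α) 0) • α - M1 *ᵥ α := by
    funext k
    have := ((th k).2 (by rw [hw, zero_mul])).1
    simp only [Pi.smul_apply, Pi.add_apply, Pi.sub_apply, smul_eq_mul]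
    linear_combination -this
  generalize (M0 *ᵥ β) 0 + (M1 *ᵥ α) 0 = f1 at e1 e3
  generalize (M0 *ᵥ α) 0 = f0 at e2 e3
  refine ⟨(f0, f1), ⟨⟨α, hα, e2⟩, ⟨β, hβ, e1⟩⟩, M1 *ᵥ α - f1 • α, fun i => ?_⟩
  rw [ht, hab i]
  simp only [mulVec_add, mulVec_smul, e1, e2, e3]
  constructor <;> module

theorem exists_rel (h : MS m κ C0 c1 b c)
    (hM : ∀ i, ∀ᵐ ν ∂(m i), ∃ z : ℝ, M0 *ᵥ ν + ν 1 • M1 *ᵥ ν = z • ν) :
    ∃ f, ∀ᵐ x ∂κ, Rel M0 M1 f x := by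
  have hF := (Eig.finite M0).prod (Eig.finite M1)
  set F := Eig M0 ×ˢ Eig M1
  let B : ℝ × ℝ → Set (E n) := fun f => {ν | (M0 *ᵥ ν) 0 + ν 1 * (M1 *ᵥ ν) 0 = f.1 + f.2 * ν 1}
  have hB : ∀ f, MeasurableSet (B f) := fun f => by
    have h0 := cont_mv M0
    have h1 := cont_mv M1
    exact (isClosed_eq (by fun_prop) (by fun_prop)).measurableSet
  have hT := (hF.prod hF).image fun p : (ℝ × ℝ) × ℝ × ℝ => (p.2.1 - p.1.1) / (p.1.2 - p.2.2)
  have huniq : ∀ ν : E n, ν 1 ∉ (fun p : (ℝ × ℝ) × ℝ × ℝ => (p.2.1 - p.1.1) / (p.1.2 - p.2.2)) ''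
      (F ×ˢ F) → ∀ f ∈ F, ∀ f' ∈ F, ν ∈ B f → ν ∈ B f' → f = f' := by
    intro ν hν f hf f' hf' h1 h2
    have h3 : f.1 + f.2 * ν 1 = f'.1 + f'.2 * ν 1 := Eq.trans (Eq.symm h1) h2
    have h4 : f.2 = f'.2 := by
      by_contra h5
      refine hν ⟨(f, f'), ⟨hf, hf'⟩, ?_⟩
      rw [div_eq_iff (sub_ne_zero.2 h5)]
      linear_combination -h3
    exact Prod.ext (by rw [h4] at h3; linarith) h4
  have hmain : ∀ᵐ x ∂κ, ∃ f ∈ F, Rel M0 M1 f x ∧ (∀ f' ∈ F, x b ∈ B f' ↔ f' = f) ∧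
      ∀ f' ∈ F, x c ∈ B f' ↔ f' = f := by
    filter_upwards [ae_rel M0 M1 h hM, ae_tri h.toMS0, up h.toMS0 b (ae_slope_ne h.nonat_b hT),
      up h.toMS0 c (ae_slope_ne h.nonat_c hT)] with x ⟨f, hf, hr⟩ hx hb hc
    have hin : ∀ i, x i ∈ B f := fun i => by
      obtain ⟨y, hy⟩ := hr
      have e1 := congrFun (hy i).1 0
      have e2 := congrFun (hy i).2 0
      simp only [Pi.sub_apply, Pi.smul_apply, smul_eq_mul, (hx.1 i).1] at e1 e2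
      change (M0 *ᵥ x i) 0 + x i 1 * (M1 *ᵥ x i) 0 = f.1 + f.2 * x i 1
      linear_combination e2 + x i 1 * e1
    exact ⟨f, hf, hr, fun f' hf' => ⟨fun h1 => huniq _ hb f' hf' f hf h1 (hin b),
      fun h1 => h1 ▸ hin b⟩, fun f' hf' => ⟨fun h1 => huniq _ hc f' hf' f hf h1 (hin c),
      fun h1 => h1 ▸ hin c⟩⟩
  by_cases hex : ∃ f ∈ F, ∀ᵐ x ∂κ, x b ∈ B f
  · obtain ⟨f, hf, h1⟩ := hex
    refine ⟨f, ?_⟩
    filter_upwards [hmain, h1] with x ⟨f', _, hr, h2, _⟩ h3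
    exact (h2 f hf).1 h3 ▸ hr
  · exfalso
    have h1 : ∀ᵐ x ∂κ, ∀ f ∈ F, x b ∉ B f := (ae_ball_iff hF.countable).2 fun f hf =>
      (irr' h (hB f) (hmain.mono fun x ⟨_, _, _, h2, h3⟩ =>
        (h2 f hf).trans (h3 f hf).symm)).resolve_left fun h2 => hex ⟨f, hf, h2⟩
    have := ae_neBot.2 h.pos
    obtain ⟨x, ⟨f, hf, -, h2, -⟩, h3⟩ := (hmain.and h1).exists
    exact h3 f hf ((h2 f hf).2 rfl)

theorem alg (h : MS m κ C0 c1 b c)
    (hM : ∀ i, ∀ᵐ ν ∂(m i), ∃ z : ℝ, M0 *ᵥ ν + ν 1 • M1 *ᵥ ν = z • ν) :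
    ∃ (z0 z1 : ℝ) (y : E n), (∀ k j, M1 k j = (if k = j then z1 else 0) +
        (if j = 0 then y k else 0)) ∧
      ∀ k j, M0 k j = (if k = j then z0 else 0) - (if j = 1 then y k else 0) := by
  obtain ⟨f, hf⟩ := exists_rel M0 M1 h hM
  have h1 := cont_mv M1
  obtain ⟨y, hy⟩ := const h (g := fun ν => M1 *ᵥ ν - f.2 • ν) (Continuous.measurable (by fun_prop))
    (hf.mono fun x ⟨y, hy⟩ => (hy b).1.trans (hy c).1.symm)
  have h2 : ∀ᵐ x ∂κ, ∀ i, x i 0 = 1 ∧ M1 *ᵥ x i - f.2 • x i = y ∧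
      M0 *ᵥ x i - f.1 • x i = -(x i 1) • y := by
    filter_upwards [hf, hy, ae_tri h.toMS0] with x ⟨y', h3⟩ h4 h5 i
    obtain rfl : y' = y := (h3 b).1.symm.trans h4
    exact ⟨(h5.1 i).1, h3 i⟩
  refine ⟨f.1, f.2, y, fun k j => ?_, fun k j => ?_⟩
  · have h3 : M1 k - Pi.single k f.2 - Pi.single 0 (y k) = 0 := by
      refine gram' h.toMS0 (h2.mono fun x hx i => ?_)
      have e := congrFun (hx i).2.1 k
      rw [sub_dotProduct, sub_dotProduct, single_dotProduct, single_dotProduct, (hx i).1]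
      simp only [Pi.sub_apply, Pi.smul_apply, smul_eq_mul, mulVec] at e
      linear_combination e
    have e := congrFun h3 j
    simp only [Pi.sub_apply, Pi.single_apply, Pi.zero_apply, eq_comm (a := j) (b := k)] at e
    linear_combination e
  · have h3 : M0 k - Pi.single k f.1 + Pi.single 1 (y k) = 0 := by
      refine gram' h.toMS0 (h2.mono fun x hx i => ?_)
      have e := congrFun (hx i).2.2 k
      rw [add_dotProduct, sub_dotProduct, single_dotProduct, single_dotProduct]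
      simp only [Pi.sub_apply, Pi.smul_apply, smul_eq_mul, mulVec] at e
      linear_combination e
    have e := congrFun h3 j
    simp only [Pi.add_apply, Pi.sub_apply, Pi.single_apply, Pi.zero_apply,
      eq_comm (a := j) (b := k)] at e
    linear_combination e

theorem ker (h : MS m κ C0 c1 b c) (A B : E n)
    (hAB : ∀ i, ∀ᵐ ν ∂(m i), A ⬝ᵥ ν + ν 1 * (B ⬝ᵥ ν) = 0) :
    ∃ e : ℝ, (∀ j, B j = if j = 0 then e else 0) ∧ ∀ j, A j = if j = 1 then -e else 0 := by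
  obtain ⟨z0, z1, y, h1, h0⟩ := alg (Matrix.of fun k j => if k = 0 then A j else 0)
    (Matrix.of fun k j => if k = 0 then B j else 0) h fun i => (hAB i).mono fun ν hν => ⟨0, by
      funext k
      by_cases hk : k = 0
      · simpa [mulVec, hk] using hν
      · simp [mulVec, dotProduct, hk]⟩
  have e1 : z1 = 0 := by simpa using (h1 1 1).symm
  have e2 : y 1 = 0 := by simpa using (h1 1 0).symm
  have e3 : z0 = 0 := by simpa [e2] using (h0 1 1).symm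
  refine ⟨y 0, fun j => by simpa [e1] using h1 0 j, fun j => ?_⟩
  have := h0 0 j
  by_cases hj : j = 1
  · simpa [e3, hj] using this
  · simpa [e3, hj] using this

end ECub.M
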