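import Pool.Agent.P.MP_029dcd_co.F.Defs

/-! Layer M: transfer of almost sure statements between the laws of marks. -/

set_option autoImplicit false

namespace ECub.M

open MeasureTheory Filter Topology Finset
open scoped ENNReal

variable {n : ℕ} {m : Fin 3 → Measure (E n)} {κ : Measure (Fin 3 → E n)} {C0 c1 : NNReal}
  {b c : Fin 3}

theorem up (h : MS0 m κ C0 c1) (i : Fin 3) {p : E n → Prop} (hp : ∀ᵐ ν ∂(m i), p ν) :
    ∀ᵐ x ∂κ, p (x i) :=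
  ae_of_ae_map (measurable_pi_apply i).aemeasurable (ae_mono (h.dom i) hp)

theorem down (h : MS0 m κ C0 c1) (i : Fin 3) {p : E n → Prop} (hm : MeasurableSet {ν | p ν})
    (hp : ∀ᵐ x ∂κ, p (x i)) : ∀ᵐ ν ∂(m i), p ν := by
  have h1 : ∀ᵐ ν ∂(κ.map fun x => x i), p ν :=
    (ae_map_iff (measurable_pi_apply i).aemeasurable hm).2 hp
  have h2 : ∀ᵐ ν ∂(c1 • m i), p ν := ae_mono (h.core i) h1
  exact (Measure.absolutelyContinuous_smul (c := (c1 : ℝ≥0∞))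
    (by exact_mod_cast h.c1_pos.ne')).ae_le h2

theorem up2 (h : MS0 m κ C0 c1) {i j : Fin 3} (hij : i ≠ j) {p : E n × E n → Prop}
    (hp : ∀ᵐ y ∂((m i).prod (m j)), p y) : ∀ᵐ x ∂κ, p (x i, x j) :=
  ae_of_ae_map ((measurable_pi_apply i).prodMk (measurable_pi_apply j)).aemeasurable
    (ae_mono (h.pf i j hij) (Measure.ae_smul_measure hp C0))

/-- a regular triple of marks -/
def Tri (x : Fin 3 → E n) : Prop :=
  (∀ i, x i 0 = 1 ∧ |x i 1 - ctr i| ≤ 1 / 100) ∧ ∑ i, co (fun i => x i 1) i • x i = 0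

theorem ae_one (h : MS0 m κ C0 c1) (i : Fin 3) :
    ∀ᵐ ν ∂(m i), ν 0 = 1 ∧ |ν 1 - ctr i| ≤ 1 / 100 := by
  obtain ⟨B, hB⟩ := h.bdd
  exact (hB i).mono fun _ h => h.2

theorem ae_tri (h : MS0 m κ C0 c1) : ∀ᵐ x ∂κ, Tri x := by
  filter_upwards [h.lin, ae_all_iff.2 fun i => up h i (ae_one h i)] with x h1 h2
  exact ⟨h2, h1⟩

theorem Tri.bounds {x : Fin 3 → E n} (h : Tri x) :
    (99 / 100 ≤ x 0 1 ∧ x 0 1 ≤ 101 / 100) ∧ (-101 / 100 ≤ x 1 1 ∧ x 1 1 ≤ -99 / 100) ∧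
      (-1 / 100 ≤ x 2 1 ∧ x 2 1 ≤ 1 / 100) := by
  have h0 := abs_le.1 (h.1 0).2
  have h1 := abs_le.1 (h.1 1).2
  have h2 := abs_le.1 (h.1 2).2
  simp only [ctr, Matrix.cons_val_zero, Matrix.cons_val_one, Matrix.cons_val] at h0 h1 h2
  refine ⟨⟨?_, ?_⟩, ⟨?_, ?_⟩, ?_, ?_⟩ <;> linarith [h0.1, h0.2, h1.1, h1.2, h2.1, h2.2]

theorem Tri.ne {x : Fin 3 → E n} (h : Tri x) {i j : Fin 3} (hij : i ≠ j) : x i 1 ≠ x j 1 := by
  obtain ⟨⟨a1, a2⟩, ⟨a3, a4⟩, a5, a6⟩ := h.bounds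
  intro he
  fin_cases i <;> fin_cases j <;> simp at hij he <;> linarith

theorem Tri.rel {x : Fin 3 → E n} (h : Tri x) (k : Fin (n + 2)) :
    (x 1 1 - x 2 1) * x 0 k + (x 2 1 - x 0 1) * x 1 k + (x 0 1 - x 1 1) * x 2 k = 0 := by
  have := congrFun h.2 k
  simpa [Fin.sum_univ_three, co] using this

theorem Tri.ab {x : Fin 3 → E n} (h : Tri x) :
    ∃ α β : E n, α 0 = 1 ∧ α 1 = 0 ∧ β 0 = 0 ∧ β 1 = 1 ∧ ∀ i, x i = α + x i 1 • β := by
  have h01 : x 0 1 - x 1 1 ≠ 0 := sub_ne_zero.2 (h.ne (by decide))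
  refine ⟨x 0 - x 0 1 • ((x 0 1 - x 1 1)⁻¹ • (x 0 - x 1)), (x 0 1 - x 1 1)⁻¹ • (x 0 - x 1),
    by simp [(h.1 0).1, (h.1 1).1], by simp [h01], by simp [(h.1 0).1, (h.1 1).1],
    by simp [h01], fun i => ?_⟩
  funext k
  have := h.rel k
  fin_cases i
  · simp
  · simp only [Fin.mk_one, Pi.add_apply, Pi.sub_apply, Pi.smul_apply, smul_eq_mul]
    field_simp
    ring
  · simp only [Fin.reduceFinMk, Pi.add_apply, Pi.sub_apply, Pi.smul_apply, smul_eq_mul]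
    field_simp
    linear_combination this

theorem Tri.all_zero {x : Fin 3 → E n} (h : Tri x) {V : Type*} [AddCommGroup V] [Module ℝ V]
    (L : E n →ₗ[ℝ] V) (hbc : b ≠ c) (hb : L (x b) = 0) (hc : L (x c) = 0) (i : Fin 3) :
    L (x i) = 0 := by
  obtain ⟨α, β, -, -, -, -, hx⟩ := h.ab
  have e : ∀ j, L (x j) = L α + x j 1 • L β := fun j => by
    conv_lhs => rw [hx j]
    rw [map_add, map_smul]
  have h1 : (x b 1 - x c 1) • L β = 0 := by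
    rw [sub_smul, sub_eq_zero]
    exact add_left_cancel ((e b).symm.trans (hb.trans (hc.symm.trans (e c))))
  have h2 : L β = 0 := (smul_eq_zero.1 h1).resolve_left (sub_ne_zero.2 (h.ne hbc))
  have h3 := e b
  rw [e i, h2, smul_zero, add_zero]
  rwa [hb, h2, smul_zero, add_zero, eq_comm] at h3

theorem meas_dot (w : E n) : Measurable fun ν : E n => w ⬝ᵥ ν :=
  (continuous_const.dotProduct continuous_id).measurable

/-- a functional that vanishes on almost all triples is zero -/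
theorem gram' (h : MS0 m κ C0 c1) {w : E n} (hw : ∀ᵐ x ∂κ, ∀ i, w ⬝ᵥ x i = 0) : w = 0 :=
  h.gram w fun i => down h i (measurableSet_eq_fun (meas_dot w) measurable_const)
    (hw.mono fun _ hx => hx i)

theorem ae_forall_of_sub {Ω V Y : Type*} [MeasurableSpace Ω] (μ : Measure Ω) [AddCommGroup V]
    [Module ℝ V] [FiniteDimensional ℝ V] [AddCommGroup Y] [Module ℝ Y] (L : Ω → V →ₗ[ℝ] Y) :
    ∀ᵐ a ∂μ, ∀ v, (∀ᵐ a' ∂μ, L a' v = 0) → L a v = 0 := by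
  let W : Submodule ℝ V :=
    { carrier := {v | ∀ᵐ a' ∂μ, L a' v = 0}
      add_mem' := fun {u v} (hu : ∀ᵐ a' ∂μ, L a' u = 0) (hv : ∀ᵐ a' ∂μ, L a' v = 0) =>
        show ∀ᵐ a' ∂μ, L a' (u + v) = 0 from (hu.and hv).mono fun a h1 => by
          rw [map_add, h1.1, h1.2, add_zero]
      zero_mem' := show ∀ᵐ a' ∂μ, L a' 0 = 0 from Eventually.of_forall fun a => map_zero _
      smul_mem' := fun r v (hv : ∀ᵐ a' ∂μ, L a' v = 0) =>
        show ∀ᵐ a' ∂μ, L a' (r • v) = 0 from hv.mono fun a h1 => by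
          rw [map_smul, h1, smul_zero] }
  obtain ⟨s, hs⟩ : W.FG := IsNoetherian.noetherian W
  have h1 : ∀ᵐ a ∂μ, ∀ v ∈ (s : Set V), L a v = 0 :=
    (ae_ball_iff s.countable_toSet).2 fun v hv => (hs ▸ Submodule.subset_span hv : v ∈ W)
  filter_upwards [h1] with a ha v hv
  have h2 : W ≤ LinearMap.ker (L a) := hs ▸ Submodule.span_le.2 ha
  exact h2 hv

theorem ae_slope_ne {μ : Measure (E n)} (hna : ∀ t0 : ℝ, μ {ν | ν 1 = t0} = 0) {F : Set ℝ}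
    (hF : F.Finite) : ∀ᵐ ν ∂μ, ν 1 ∉ F := by
  have : ∀ᵐ ν ∂μ, ∀ t ∈ F, ν 1 ≠ t :=
    (ae_ball_iff hF.countable).2 fun t _ => by simpa [ae_iff] using hna t
  exact this.mono fun ν h hν => h _ hν rfl

theorem nonat (h : MS m κ C0 c1 b c) {i : Fin 3} (hi : i = b ∨ i = c) (t0 : ℝ) :
    m i {ν | ν 1 = t0} = 0 := by
  rcases hi with rfl | rfl
  · exact h.nonat_b t0
  · exact h.nonat_c t0

theorem irr' (h : MS m κ C0 c1 b c) {B : Set (E n)} (hB : MeasurableSet B)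
    (hx : ∀ᵐ x ∂κ, x b ∈ B ↔ x c ∈ B) : (∀ᵐ x ∂κ, x b ∈ B) ∨ ∀ᵐ x ∂κ, x b ∉ B := by
  rcases h.irred B B hB hB hx with h1 | h1
  · exact Or.inr (by simpa [ae_iff] using h1)
  · exact Or.inl (by simpa [ae_iff] using h1)

theorem const (h : MS m κ C0 c1 b c) {g : E n → E n} (hg : Measurable g)
    (hx : ∀ᵐ x ∂κ, g (x b) = g (x c)) : ∃ y, ∀ᵐ x ∂κ, g (x b) = y :=
  exists_eventuallyEq_const_of_forall_separating (l := ae κ) (f := fun x => g (x b))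
    MeasurableSet fun U hU => irr' h (hg hU) (hx.mono fun x h1 => by
      simp only [Set.mem_preimage, h1])

theorem psd_zero {μ : Measure (E n)} [IsFiniteMeasure μ] (hna : ∀ t0 : ℝ, μ {ν | ν 1 = t0} = 0)
    {Sg : Matrix (Fin (n + 2)) (Fin (n + 2)) ℝ} (hSg : Sg.PosSemidef)
    (hb : ∀ᵐ y ∂(μ.prod μ), y.1 1 ≠ y.2 1 → y.1 ⬝ᵥ Sg.mulVec y.2 = 0) :
    ∀ᵐ ν ∂μ, Sg.mulVec ν = 0 := by
  let L : E n → E n →ₗ[ℝ] ℝ := fun a =>
    { toFun := fun v => v ⬝ᵥ Sg.mulVec a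
      map_add' := fun u v => add_dotProduct _ _ _
      map_smul' := fun r v => smul_dotProduct _ _ _ }
  filter_upwards [Measure.ae_ae_of_ae_prod hb, ae_forall_of_sub μ L] with ν h1 h2
  refine (hSg.dotProduct_mulVec_zero_iff ν).1 (h2 ν ?_)
  filter_upwards [h1, ae_slope_ne hna (Set.finite_singleton (ν 1))] with ν' h3 h4
  exact h3 fun he => h4 he.symm

theorem cov_zero (h : MS m κ C0 c1 b c) (Sg : Matrix (Fin (n + 2)) (Fin (n + 2)) ℝ)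
    (hSg : Sg.PosSemidef)
    (hb : ∀ᵐ y ∂((m b).prod (m b)), y.1 1 ≠ y.2 1 → y.1 ⬝ᵥ Sg.mulVec y.2 = 0)
    (hc : ∀ᵐ y ∂((m c).prod (m c)), y.1 1 ≠ y.2 1 → y.1 ⬝ᵥ Sg.mulVec y.2 = 0) : Sg = 0 := by
  have := h.fin_m
  have h1 := up h.toMS0 b (psd_zero h.nonat_b hSg hb)
  have h2 := up h.toMS0 c (psd_zero h.nonat_c hSg hc)
  funext k
  refine gram' h.toMS0 ?_
  filter_upwards [h1, h2, ae_tri h.toMS0] with x h3 h4 h5 i
  exact congrFun (h5.all_zero Sg.mulVecLin h.bc h3 h4 i) k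

end ECub.M
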