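import Pool.Agent.P.MP_029dcd_co.F.M.Basic

/-! Layer M: Gram matrices and the bound for the number of marks. -/

set_option autoImplicit false

namespace ECub.M

open MeasureTheory Filter Topology Finset Matrix
open scoped ENNReal

section Gram

variable {Ω ι : Type*} [MeasurableSpace Ω] [Fintype ι] (μ : Measure Ω) (F : Ω → ι → ℝ)

/-- the Gram matrix of a family of functions -/
noncomputable def gramM : Matrix ι ι ℝ := Matrix.of fun k l => ∫ a, F a k * F a l ∂μ

variable {μ F}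

theorem dot_mul_dot (v w u : ι → ℝ) :
    (v ⬝ᵥ u) * (w ⬝ᵥ u) = ∑ k, ∑ l, v k * w l * (u k * u l) := by
  simp only [dotProduct, Finset.sum_mul_sum]
  exact Finset.sum_congr rfl fun k _ => Finset.sum_congr rfl fun l _ => by ring

theorem int_dot (hF : ∀ k l, Integrable (fun a => F a k * F a l) μ) (v w : ι → ℝ) :
    Integrable (fun a => (v ⬝ᵥ F a) * (w ⬝ᵥ F a)) μ := by
  simp only [dot_mul_dot]
  exact integrable_finsetSum _ fun k _ => integrable_finsetSum _ fun l _ => (hF k l).const_mul _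

theorem dot_gram (hF : ∀ k l, Integrable (fun a => F a k * F a l) μ) (v w : ι → ℝ) :
    v ⬝ᵥ gramM μ F *ᵥ w = ∫ a, (v ⬝ᵥ F a) * (w ⬝ᵥ F a) ∂μ := by
  simp only [dot_mul_dot]
  rw [integral_finsetSum _ fun k _ => integrable_finsetSum _ fun l _ => (hF k l).const_mul _]
  simp only [dotProduct, mulVec, gramM, of_apply, Finset.mul_sum]
  refine Finset.sum_congr rfl fun k _ => ?_
  rw [integral_finsetSum _ fun l _ => (hF k l).const_mul _]
  exact Finset.sum_congr rfl fun l _ => by rw [integral_const_mul]; ring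

theorem ae_of_gram (hF : ∀ k l, Integrable (fun a => F a k * F a l) μ) {w : ι → ℝ}
    (hw : w ⬝ᵥ gramM μ F *ᵥ w = 0) : ∀ᵐ a ∂μ, w ⬝ᵥ F a = 0 := by
  rw [dot_gram hF, integral_eq_zero_iff_of_nonneg (fun a => mul_self_nonneg _)
    (int_dot hF w w)] at hw
  exact hw.mono fun a ha => mul_self_eq_zero.1 ha

theorem int_of_bdd [IsFiniteMeasure μ] (hm : Measurable F) {B : ℝ} (hB : ∀ᵐ a ∂μ, ‖F a‖ ≤ B)
    (k l : ι) : Integrable (fun a => F a k * F a l) μ := by
  refine Integrable.of_bound (Measurable.aestronglyMeasurable (by fun_prop)) (B * B)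
    (hB.mono fun a ha => ?_)
  rw [norm_mul]
  exact mul_le_mul ((norm_le_pi_norm _ k).trans ha) ((norm_le_pi_norm _ l).trans ha)
    (norm_nonneg _) ((norm_nonneg _).trans ha)

end Gram

variable {n : ℕ} {m : Fin 3 → Measure (E n)} {κ : Measure (Fin 3 → E n)} {C0 c1 : NNReal}

theorem scal {a b c x y z θ : ℝ} (h : a * x + b * y + c * z = 0) (ha : 9 / 10 ≤ |a|)
    (hb : |b| ≤ 21 / 10) (hc : |c| ≤ 21 / 10) (hy : |y| ≤ θ) (hz : |z| ≤ θ) : |x| ≤ 5 * θ := by
  have h1 : |a| * |x| ≤ |b| * |y| + |c| * |z| := by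
    rw [← abs_mul, ← abs_mul, ← abs_mul, show a * x = -(b * y + c * z) by linarith, abs_neg]
    exact abs_add_le _ _
  have h2 := mul_le_mul hb hy (abs_nonneg _) (by norm_num)
  have h3 := mul_le_mul hc hz (abs_nonneg _) (by norm_num)
  have h4 := mul_le_mul_of_nonneg_right ha (abs_nonneg x)
  have h5 := (abs_nonneg y).trans hy
  linarith

theorem Tri.dot_le {x : Fin 3 → E n} (h : Tri x) (w : E n) {θ : ℝ} (i : Fin 3)
    (hj : ∀ j, i ≠ j → |w ⬝ᵥ x j| ≤ θ) : |w ⬝ᵥ x i| ≤ 5 * θ := by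
  obtain ⟨⟨a1, a2⟩, ⟨a3, a4⟩, a5, a6⟩ := h.bounds
  have e : (x 1 1 - x 2 1) * (w ⬝ᵥ x 0) + (x 2 1 - x 0 1) * (w ⬝ᵥ x 1) +
      (x 0 1 - x 1 1) * (w ⬝ᵥ x 2) = 0 := by
    have := congrArg (fun v => w ⬝ᵥ v) h.2
    simpa [Fin.sum_univ_three, co] using this
  have b0 : 9 / 10 ≤ |x 1 1 - x 2 1| ∧ |x 1 1 - x 2 1| ≤ 21 / 10 := by
    rw [abs_of_neg (by linarith)]; constructor <;> linarith
  have b1 : 9 / 10 ≤ |x 2 1 - x 0 1| ∧ |x 2 1 - x 0 1| ≤ 21 / 10 := by
    rw [abs_of_neg (by linarith)]; constructor <;> linarith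
  have b2 : 9 / 10 ≤ |x 0 1 - x 1 1| ∧ |x 0 1 - x 1 1| ≤ 21 / 10 := by
    rw [abs_of_pos (by linarith)]; constructor <;> linarith
  fin_cases i
  · exact scal e b0.1 b1.2 b2.2 (hj 1 (by decide)) (hj 2 (by decide))
  · exact scal (x := w ⬝ᵥ x 1) (by linear_combination e) b1.1 b0.2 b2.2 (hj 0 (by decide)) (hj 2 (by decide))
  · exact scal (x := w ⬝ᵥ x 2) (by linear_combination e) b2.1 b0.2 b1.2 (hj 0 (by decide)) (hj 1 (by decide))

theorem sup_bd (h : MS0 m κ C0 c1) (w : E n) {θ : ℝ}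
    (hs : ∀ j, (C0 : ℝ) * (m j).real {ν | θ < |w ⬝ᵥ ν|} ≤ c1 / 4) (i : Fin 3) :
    ∀ᵐ ν ∂(m i), |w ⬝ᵥ ν| ≤ 5 * θ := by
  have := h.fin_m
  have := h.fin_κ
  have hm : ∀ r : ℝ, MeasurableSet {ν : E n | r < |w ⬝ᵥ ν|} :=
    fun r => measurableSet_lt measurable_const (meas_dot w).abs
  set A := {ν : E n | 5 * θ < |w ⬝ᵥ ν|}
  set B := {ν : E n | θ < |w ⬝ᵥ ν|}
  have h1 : (c1 : ℝ) * (m i).real A ≤ κ.real {x | x i ∈ A} := by
    have h2 := h.core i A
    rw [Measure.map_apply (measurable_pi_apply i) (hm _)] at h2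
    have h3 := ENNReal.toReal_mono (measure_ne_top _ _) h2
    simpa [Measure.real, Set.preimage] using h3
  have h2 : ∀ j, κ.real {x | i ≠ j ∧ x i ∈ A ∧ x j ∈ B} ≤ (m i).real A * (c1 / 4) := fun j => by
    by_cases hij : i = j
    · simp only [hij, ne_eq, not_true_eq_false, false_and, Set.ofPred_false, measureReal_empty]
      positivity
    have h3 := h.pf i j hij (A ×ˢ B)
    rw [Measure.map_apply ((measurable_pi_apply i).prodMk (measurable_pi_apply j))
      ((hm _).prod (hm _)), Measure.smul_apply, Measure.prod_prod] at h3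
    have h4 := ENNReal.toReal_mono (by simp [ENNReal.smul_def, ENNReal.mul_eq_top]) h3
    have h5 : κ.real {x | i ≠ j ∧ x i ∈ A ∧ x j ∈ B} ≤ C0 * ((m i).real A * (m j).real B) := by
      simpa [Measure.real, hij, Set.preimage, ENNReal.smul_def] using h4
    have h6 := mul_le_mul_of_nonneg_left (hs j) (measureReal_nonneg (μ := m i) (s := A))
    linarith
  have h3 : κ.real {x | x i ∈ A} ≤ ∑ j, κ.real {x | i ≠ j ∧ x i ∈ A ∧ x j ∈ B} := by
    refine le_trans (ENNReal.toReal_mono (measure_ne_top _ _) (measure_mono_ae ?_))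
      (measureReal_iUnion_fintype_le _)
    filter_upwards [ae_tri h] with x hx (hA : 5 * θ < |w ⬝ᵥ x i|)
    by_contra hc
    refine absurd (hx.dot_le w i fun j hij => not_lt.1 fun hB => hc ?_) (not_le.2 hA)
    exact Set.mem_iUnion.2 ⟨j, hij, hA, hB⟩
  have h4 : (m i).real A = 0 := by
    rw [Fin.sum_univ_three] at h3
    have h5 : (0 : ℝ) < c1 := h.c1_pos
    refine le_antisymm ?_ measureReal_nonneg
    nlinarith [h2 0, h2 1, h2 2]
  rw [measureReal_eq_zero_iff] at h4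
  simpa [ae_iff] using h4

theorem int_sum (h : MS0 m κ C0 c1) (k l : Fin (n + 2)) :
    Integrable (fun ν : E n => id ν k * id ν l) (Measure.sum m) := by
  have := h.fin_m
  obtain ⟨B, hB⟩ := h.bdd
  exact int_of_bdd measurable_id (Measure.ae_sum_iff.2 fun i => (hB i).mono fun _ h => h.1) k l

theorem gram_pos (h : MS0 m κ C0 c1) {w : E n} (hw : w ⬝ᵥ gramM (Measure.sum m) id *ᵥ w = 0) :
    w = 0 := h.gram w (Measure.ae_sum_iff.1 (ae_of_gram (int_sum h) hw))

theorem sq_bd (h : MS0 m κ C0 c1) (w : E n) : ∀ᵐ ν ∂(Measure.sum m),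
    (w ⬝ᵥ ν) ^ 2 ≤ 100 * (C0 + 1) / c1 * (w ⬝ᵥ gramM (Measure.sum m) id *ᵥ w) := by
  have := h.fin_m
  by_cases hw : w = 0
  · simp [hw]
  have hc : (0 : ℝ) < c1 := h.c1_pos
  have h0 := dot_gram (int_sum h) w w
  have h1 : 0 < w ⬝ᵥ gramM (Measure.sum m) id *ᵥ w :=
    lt_of_le_of_ne (h0 ▸ integral_nonneg fun a => mul_self_nonneg _) fun he => hw (gram_pos h he.symm)
  generalize w ⬝ᵥ gramM (Measure.sum m) id *ᵥ w = s at h0 h1
  have h2 : 0 < 4 * (C0 + 1) / c1 * s := by positivity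
  have h3 := Real.mul_self_sqrt h2.le
  have h4 := Real.sqrt_nonneg (4 * (C0 + 1) / c1 * s)
  generalize Real.sqrt (4 * (C0 + 1) / c1 * s) = θ at h3 h4
  refine Measure.ae_sum_iff.2 fun i => (sup_bd h w (θ := θ) (fun j => ?_) i).mono fun ν hν => ?_
  · have h5 := mul_meas_ge_le_integral_of_nonneg (Eventually.of_forall fun a => mul_self_nonneg _)
      (int_dot (int_sum h) w w) (θ * θ)
    have h6 : (m j).real {ν | θ < |w ⬝ᵥ ν|} ≤
        (Measure.sum m).real {a | θ * θ ≤ w ⬝ᵥ id a * w ⬝ᵥ id a} := by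
      refine ENNReal.toReal_mono (measure_ne_top _ _) (le_trans (measure_mono fun ν hν => ?_)
        (Measure.le_sum m j _))
      change θ * θ ≤ w ⬝ᵥ ν * w ⬝ᵥ ν
      rw [← abs_mul_abs_self (w ⬝ᵥ ν)]
      exact mul_self_le_mul_self h4 (le_of_lt hν)
    rw [← h0, h3] at h5
    rw [h3] at h6
    have h7 := (mul_le_mul_of_nonneg_left h6 h2.le).trans h5
    have h8 := measureReal_nonneg (μ := m j) (s := {ν | θ < |w ⬝ᵥ ν|})
    generalize (m j).real {ν | θ < |w ⬝ᵥ ν|} = a at h7 h8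
    have h9 : 4 * (C0 + 1) * a ≤ c1 := by
      rw [mul_right_comm, mul_le_iff_le_one_left h1, div_mul_eq_mul_div, div_le_one hc] at h7
      exact h7
    nlinarith
  · have h5 := mul_self_le_mul_self (abs_nonneg _) hν
    rw [abs_mul_abs_self] at h5
    calc (w ⬝ᵥ ν) ^ 2 ≤ 25 * (θ * θ) := by nlinarith
      _ = _ := by rw [h3]; ring

theorem dim_bound (C0 c1 Mx : NNReal) : ∃ M0 : ℕ, ∀ (n : ℕ) (m : Fin 3 → Measure (E n))
    (κ : Measure (Fin 3 → E n)), MS0 m κ C0 c1 → (∀ i, m i Set.univ ≤ Mx) → n ≤ M0 := by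
  refine ⟨⌈(100 * (C0 + 1) / c1 : ℝ) * (3 * Mx)⌉₊, fun n m κ h hM => ?_⟩
  have := h.fin_m
  set C : ℝ := 100 * (C0 + 1) / c1
  have hC : 0 ≤ C := by positivity
  set G := gramM (Measure.sum m) (id : E n → E n) with hG
  have hu : IsUnit G := by
    rw [← mulVec_injective_iff_isUnit]
    refine (injective_iff_map_eq_zero G.mulVecLin).2 fun w hw => gram_pos h ?_
    rw [show G *ᵥ w = 0 from hw, dotProduct_zero]
  have hd := (isUnit_iff_isUnit_det G).1 hu
  have h1 : ∀ᵐ ν ∂(Measure.sum m), (G⁻¹ *ᵥ ν) ⬝ᵥ ν ≤ C := by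
    filter_upwards [ae_all_iff.2 fun j => sq_bd h (TopologicalSpace.denseSeq (E n) j)] with ν hν
    have h2 : ∀ w : E n, (w ⬝ᵥ ν) ^ 2 ≤ C * (w ⬝ᵥ G *ᵥ w) := fun w =>
      (TopologicalSpace.denseRange_denseSeq (E n)).induction_on w (isClosed_le
        ((continuous_id.dotProduct continuous_const).pow 2) (continuous_const.mul
          (continuous_id.dotProduct (continuous_const.matrix_mulVec continuous_id)))) hν
    have h3 := h2 (G⁻¹ *ᵥ ν)
    rw [mulVec_mulVec, mul_nonsing_inv G hd, one_mulVec] at h3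
    by_contra h4
    nlinarith
  have e : ∀ ν : E n, (G⁻¹ *ᵥ ν) ⬝ᵥ ν = ∑ k, ∑ l, G⁻¹ k l * (id ν l * id ν k) := fun ν => by
    simp only [dotProduct, mulVec, Finset.sum_mul, id, mul_assoc]
  have h2 : ∫ ν, (G⁻¹ *ᵥ ν) ⬝ᵥ ν ∂(Measure.sum m) = (n + 2 : ℕ) := by
    simp only [e]
    rw [integral_finsetSum _ fun k _ => integrable_finsetSum _ fun l _ =>
      (int_sum h l k).const_mul _]
    have e2 : ∀ k, ∫ ν, ∑ l, G⁻¹ k l * (id ν l * id ν k) ∂(Measure.sum m) = 1 := fun k => by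
      rw [integral_finsetSum _ fun l _ => (int_sum h l k).const_mul _]
      have := congrFun (congrFun (nonsing_inv_mul G hd) k) k
      rw [one_apply_eq, mul_apply] at this
      rw [← this]
      exact Finset.sum_congr rfl fun l _ => integral_const_mul _ _
    simp only [e2]
    simp
  have h3 : ∫ ν, (G⁻¹ *ᵥ ν) ⬝ᵥ ν ∂(Measure.sum m) ≤ ∫ _, C ∂(Measure.sum m) := by
    refine integral_mono_ae ?_ (integrable_const C) h1
    simp only [e]
    exact integrable_finsetSum _ fun k _ => integrable_finsetSum _ fun l _ =>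
      (int_sum h l k).const_mul _
  have h4 : (Measure.sum m).real Set.univ ≤ 3 * Mx := by
    have h5 : Measure.sum m Set.univ ≤ (3 * Mx : NNReal) := by
      rw [Measure.sum_apply _ MeasurableSet.univ, tsum_fintype, Fin.sum_univ_three]
      refine (add_le_add (add_le_add (hM 0) (hM 1)) (hM 2)).trans (le_of_eq ?_)
      push_cast
      ring
    simpa [Measure.real] using ENNReal.toReal_mono ENNReal.coe_ne_top h5
  rw [h2, integral_const, smul_eq_mul] at h3
  have h5 : (n : ℝ) ≤ C * (3 * Mx) := by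
    have := mul_le_mul_of_nonneg_right h4 hC
    push_cast at h3
    linarith
  exact_mod_cast h5.trans (Nat.le_ceil _)

end ECub.M
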